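import Mathlib
import Pool.Agent.Run7.h113.Cnt

/-!
Counting products of distinct primes with weights (all primes).
-/

set_option autoImplicit false

open Finset
open Pool.Agent.H452R2.Om (OP zz zz_pos zz_gt_two zz_lt_three)

namespace Run7.h113.DM

/-- Mertens -/
theorem mert_all_up : ∃ C : ℝ, ∀ y : ℕ, 3 ≤ y →
    ∑ p ∈ OP (fun _ => True) y, 1 / (p:ℝ) ≤ Real.log (Real.log y) + C := by
  obtain ⟨C, hC⟩ := Pool.Agent.Helper256.KM.mertens_inv
  refine ⟨C, fun y hy => ?_⟩
  have h1 := (abs_le.mp (hC y hy)).2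
  have h2 : ∑ p ∈ OP (fun _ => True) y, 1 / (p:ℝ) ≤ ∑ p ∈ (Finset.Icc 1 y).filter Nat.Prime, (1 : ℝ) / p := by
    apply sum_le_sum_of_subset_of_nonneg
    · intro p hp
      unfold OP at hp
      rw [mem_filter, mem_Icc] at hp
      rw [mem_filter, mem_Icc]
      exact ⟨⟨by omega, hp.1.2⟩, hp.2.1⟩
    · intro p _ _
      positivity
  linarith

/-- weights of the primes -/
noncomputable def fp (p : ℕ) : ℝ := if p = 2 then 2 else p / zz

/-- the primes -/
def PT (T : ℕ) : Finset ℕ := (Icc 2 T).filter (fun p => p.Prime)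

lemma mem_PT {T p : ℕ} : p ∈ PT T ↔ (2 ≤ p ∧ p ≤ T) ∧ p.Prime := by
  unfold PT; rw [mem_filter, mem_Icc]

lemma PT_cases {T p : ℕ} (hp : p ∈ PT T) : p = 2 ∨ 3 ≤ p := by
  rw [mem_PT] at hp
  have := hp.2.two_le
  omega

lemma fp_props {T p : ℕ} (hp : p ∈ PT T) : 1 ≤ fp p ∧ fp p ≤ p ∧ (p:ℝ) ≤ 3 * fp p := by
  have hz := zz_gt_two
  have hz3 := zz_lt_three
  rcases PT_cases hp with h | h
  · unfold fp
    rw [if_pos h, h]
    norm_num
  · have hne : p ≠ 2 := by omega
    have h5 : (3:ℝ) ≤ p := by exact_mod_cast h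
    unfold fp
    rw [if_neg hne]
    refine ⟨?_, ?_, ?_⟩
    · rw [le_div_iff₀ (by linarith)]; linarith
    · exact div_le_self (by linarith) (by linarith)
    · rw [← mul_div_assoc, le_div_iff₀ (by linarith)]
      nlinarith

lemma theta_fp (T : ℕ) {x : ℝ} (hx : 0 ≤ x) : ∑ p ∈ (PT T).filter (fun p => fp p ≤ x), Real.log p ≤ 5 * x := by
  have h1 : ∑ p ∈ (PT T).filter (fun p => fp p ≤ x), Real.log p ≤ Chebyshev.theta (3 * x) := by
    unfold Chebyshev.theta
    apply sum_le_sum_of_subset_of_nonneg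
    · intro p hp
      rw [mem_filter] at hp
      obtain ⟨g1, g2, g3⟩ := fp_props hp.1
      have hp' := mem_PT.mp hp.1
      rw [mem_filter, mem_Ioc]
      refine ⟨⟨by omega, ?_⟩, hp'.2⟩
      rw [Nat.le_floor_iff (by linarith)]
      linarith [hp.2]
    · intro p hp _
      rw [mem_filter, mem_Ioc] at hp
      apply Real.log_nonneg
      exact_mod_cast hp.1.1
  have h2 := Chebyshev.theta_le_log4_mul_x (x := 3 * x) (by linarith)
  have h3 : Real.log 4 ≤ 5 / 3 := by
    have : (4:ℝ) = 2 ^ 2 := by norm_num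
    rw [this, Real.log_pow]
    have := Real.log_two_lt_d9
    push_cast
    linarith
  nlinarith

/-- the exponent of the logarithm -/
noncomputable def gam : ℝ := zz - 1

lemma gam_pos : 0 < gam := by unfold gam; linarith [zz_gt_two]

lemma gam_lt : gam < 2 := by unfold gam; linarith [zz_lt_three]

/-- the Euler product -/
lemma euler_up : ∃ C : ℝ, 0 < C ∧ ∀ Y : ℝ, 2 ≤ Y → ∀ T : ℕ, (T:ℝ) ≤ 3 * Y →
    ∏ p ∈ PT T, (1 + 1 / fp p) ≤ C * (Real.log Y) ^ (gam + 1) := by
  obtain ⟨C, hC⟩ := mert_all_up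
  have hz := zz_gt_two
  have hz0 := zz_pos
  refine ⟨(3/2) * Real.exp (zz * |C|) * 3 ^ (gam + 1), by positivity, ?_⟩
  intro Y hY T hT
  set y := ⌊3 * Y⌋₊ with hy
  have hTy : T ≤ y := Nat.le_floor hT
  have hy6 : 6 ≤ y := Nat.le_floor (by push_cast; linarith)
  have hyY : (y:ℝ) ≤ 3 * Y := Nat.floor_le (by linarith)
  have hlY : 0 < Real.log Y := Real.log_pos (by linarith)
  have hy6' : (6:ℝ) ≤ y := by exact_mod_cast hy6
  have hly1 : 1 ≤ Real.log y := by
    rw [Real.le_log_iff_exp_le (by linarith)]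
    have := Real.exp_one_lt_d9
    linarith
  -- the factor at 2
  have hsub : PT T ⊆ insert 2 (OP (fun _ => True) y) := by
    intro p hp
    have hp' := mem_PT.mp hp
    rw [mem_insert]
    rcases PT_cases hp with h | h
    · left; exact h
    · right
      unfold OP
      rw [mem_filter, mem_Icc]
      exact ⟨⟨by omega, by omega⟩, hp'.2, trivial⟩
  have hfp0 : ∀ p : ℕ, 0 ≤ fp p := by
    intro p
    unfold fp
    split_ifs <;> positivity
  have h2n : (2:ℕ) ∉ OP (fun _ => True) y := by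
    unfold OP
    rw [mem_filter, mem_Icc]
    omega
  have h1 : ∏ p ∈ PT T, (1 + 1 / fp p) ≤ ∏ p ∈ insert 2 (OP (fun _ => True) y), (1 + 1 / fp p) := by
    rw [← prod_sdiff hsub]
    apply le_mul_of_one_le_left
    · apply prod_nonneg
      intro p _
      have := hfp0 p
      positivity
    · apply one_le_prodR
      intro p _
      have := hfp0 p
      have : 0 ≤ 1 / fp p := by positivity
      linarith
  refine h1.trans ?_
  rw [prod_insert h2n]
  have e2 : 1 + 1 / fp 2 = 3 / 2 := by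
    unfold fp; norm_num
  rw [e2]
  have h3 : ∏ p ∈ OP (fun _ => True) y, (1 + 1 / fp p) ≤
      Real.exp (zz * ∑ p ∈ OP (fun _ => True) y, 1 / (p:ℝ)) := by
    rw [mul_sum, Real.exp_sum]
    apply prod_le_prod
    · intro p _
      have := hfp0 p
      positivity
    · intro p hp
      unfold OP at hp
      rw [mem_filter, mem_Icc] at hp
      have hne : p ≠ 2 := by omega
      unfold fp
      rw [if_neg hne, one_div_div]
      have := Real.add_one_le_exp (zz / (p:ℝ))
      rw [mul_one_div]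
      linarith
  have h4 : Real.exp (zz * ∑ p ∈ OP (fun _ => True) y, 1 / (p:ℝ)) ≤
      Real.exp (zz * |C|) * (Real.log y) ^ (gam + 1) := by
    rw [Real.rpow_def_of_pos (by linarith), ← Real.exp_add]
    apply Real.exp_le_exp.mpr
    have h5 := hC y (by omega)
    have h6 := mul_le_mul_of_nonneg_left h5 hz0.le
    have h7 : zz * C ≤ zz * |C| := mul_le_mul_of_nonneg_left (le_abs_self C) hz0.le
    unfold gam
    nlinarith
  have h5 : Real.log y ≤ 3 * Real.log Y := by
    have h6 : Real.log y ≤ Real.log (3 * Y) := Real.log_le_log (by linarith) hyY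
    rw [Real.log_mul (by norm_num) (by linarith)] at h6
    have h7 : Real.log 3 ≤ 2 * Real.log Y := by
      have h8 : Real.log 3 ≤ Real.log (Y ^ 2) := Real.log_le_log (by norm_num) (by nlinarith)
      rw [Real.log_pow] at h8
      push_cast at h8
      exact h8
    linarith
  have h6 : (Real.log y) ^ (gam + 1) ≤ 3 ^ (gam + 1) * (Real.log Y) ^ (gam + 1) := by
    rw [← Real.mul_rpow (by norm_num) hlY.le]
    exact Real.rpow_le_rpow (by linarith) h5 (by linarith [gam_pos])
  calc 3 / 2 * ∏ p ∈ OP (fun _ => True) y, (1 + 1 / fp p)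
      ≤ 3 / 2 * (Real.exp (zz * |C|) * (3 ^ (gam + 1) * (Real.log Y) ^ (gam + 1))) := by
        apply mul_le_mul_of_nonneg_left _ (by norm_num)
        refine (h3.trans h4).trans ?_
        exact mul_le_mul_of_nonneg_left h6 (Real.exp_pos _).le
    _ = _ := by ring

/-- the weight of a set of primes -/
noncomputable def FF (S : Finset ℕ) : ℝ := ∏ p ∈ S, fp p

lemma FF_ge {T : ℕ} {S : Finset ℕ} (hS : S ⊆ PT T) : 1 ≤ FF S :=
  one_le_prodR fun _ hp => (fp_props (hS hp)).1

/-- members of a set are bounded by the weight -/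
lemma fp_le_FF {T : ℕ} {S : Finset ℕ} (hS : S ⊆ PT T) {p : ℕ} (hp : p ∈ S) : fp p ≤ FF S := by
  classical
  unfold FF
  rw [← mul_prod_erase S fp hp]
  apply le_mul_of_one_le_right
  · have := (fp_props (hS hp)).1
    linarith
  · exact one_le_prodR fun q hq => (fp_props (hS (mem_of_mem_erase hq))).1

/-- **upper bound for the counting function** -/
theorem count_up : ∃ C : ℝ, 0 < C ∧ ∀ Y : ℝ, 2 ≤ Y → ∀ T : ℕ,
    (((PT T).powerset.filter (fun S => FF S ≤ Y)).card : ℝ) ≤ C * Y * (Real.log Y) ^ gam := by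
  classical
  obtain ⟨C, hC0, hC⟩ := euler_up
  refine ⟨12 * C, by positivity, ?_⟩
  intro Y hY T
  set y := ⌊3 * Y⌋₊ with hy
  have hyY : (y:ℝ) ≤ 3 * Y := Nat.floor_le (by linarith)
  have hlY : 0 < Real.log Y := Real.log_pos (by linarith)
  -- all primes are at most y
  have hsub : (PT T).powerset.filter (fun S => FF S ≤ Y) ⊆ (PT y).powerset.filter (fun S => FF S ≤ Y) := by
    intro S hS
    rw [mem_filter, mem_powerset] at hS ⊢
    refine ⟨?_, hS.2⟩
    intro p hp
    have hpT := hS.1 hp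
    have h1 := fp_le_FF hS.1 hp
    obtain ⟨g1, g2, g3⟩ := fp_props hpT
    rw [mem_PT] at hpT ⊢
    refine ⟨⟨hpT.1.1, ?_⟩, hpT.2⟩
    apply Nat.le_floor
    linarith [hS.2]
  have h1 : (((PT T).powerset.filter (fun S => FF S ≤ Y)).card : ℝ) ≤
      (((PT y).powerset.filter (fun S => FF S ≤ Y)).card : ℝ) := by
    exact_mod_cast card_le_card hsub
  refine h1.trans ?_
  have h2 := count_abs (P := PT y) (f := fp) (l := fun p => Real.log p) (K := 5) (fun p hp => (fp_props hp).1)
    (fun p hp => by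
      obtain ⟨g1, g2, g3⟩ := fp_props hp
      exact Real.log_nonneg (by linarith))
    (fun p hp => by
      obtain ⟨g1, g2, g3⟩ := fp_props hp
      exact Real.log_le_log (by linarith) g2)
    (fun x hx => theta_fp y hx) hY
  have h3 := hC Y hY y hyY
  have h4 : √Y ≤ 2 * Y / Real.log Y := by
    rw [le_div_iff₀ hlY]
    have h5 : Real.log Y ≤ 2 * √Y := by
      have h6 := Real.log_le_sub_one_of_pos (Real.sqrt_pos.mpr (by linarith : 0 < Y))
      rw [Real.log_sqrt (by linarith)] at h6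
      linarith
    have h7 : √Y * √Y = Y := Real.mul_self_sqrt (by linarith)
    nlinarith [Real.sqrt_nonneg Y]
  have h5 : √Y + 2 * 5 * Y / Real.log Y ≤ 12 * Y / Real.log Y := by
    have : 12 * Y / Real.log Y = 2 * Y / Real.log Y + 2 * 5 * Y / Real.log Y := by ring
    rw [this]
    linarith
  have h6 : 0 ≤ ∏ p ∈ PT y, (1 + 1 / fp p) := by
    apply prod_nonneg
    intro p hp
    have := (fp_props hp).1
    positivity
  calc (((PT y).powerset.filter (fun S => FF S ≤ Y)).card : ℝ)
      ≤ (√Y + 2 * 5 * Y / Real.log Y) * ∏ p ∈ PT y, (1 + 1 / fp p) := h2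
    _ ≤ (12 * Y / Real.log Y) * (C * (Real.log Y) ^ (gam + 1)) :=
        mul_le_mul h5 h3 h6 (by positivity)
    _ = 12 * C * Y * (Real.log Y) ^ gam := by
        rw [Real.rpow_add hlY, Real.rpow_one]
        field_simp

end Run7.h113.DM
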