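import Mathlib
import Pool.Agent.Run7.h113.Ser
import Pool.Agent.Run7.h113.DM.Cnt

/-!
Weighted sums over products of distinct primes.
-/

set_option autoImplicit false

open Finset
open Pool.Agent.H452R2.Om (zz zz_pos zz_gt_two zz_lt_three)

namespace Run7.h113.DM

/-- the counting bound below a level -/
theorem count_up' : ∃ C : ℝ, 0 < C ∧ ∀ Y : ℝ, 2 ≤ Y → ∀ x : ℝ, 1 ≤ x → x ≤ Y → ∀ T : ℕ,
    (((PT T).powerset.filter (fun S => FF S ≤ x)).card : ℝ) ≤ C * x * (Real.log Y) ^ gam := by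
  obtain ⟨C, hC0, hC⟩ := count_up
  refine ⟨2 * C, by positivity, ?_⟩
  intro Y hY x hx hxY T
  have hlY : Real.log 2 ≤ Real.log Y := Real.log_le_log (by norm_num) hY
  have hl2 : 0 < Real.log 2 := Real.log_pos (by norm_num)
  rcases le_or_gt 2 x with h | h
  · refine (hC x h T).trans ?_
    have h1 : (Real.log x) ^ gam ≤ (Real.log Y) ^ gam :=
      Real.rpow_le_rpow (Real.log_nonneg hx) (Real.log_le_log (by linarith) hxY) gam_pos.le
    have h2 : 0 ≤ (Real.log Y) ^ gam := Real.rpow_nonneg (hl2.le.trans hlY) _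
    calc C * x * (Real.log x) ^ gam ≤ C * x * (Real.log Y) ^ gam := by gcongr
      _ ≤ 2 * C * x * (Real.log Y) ^ gam := by
          have : 0 ≤ C * x * (Real.log Y) ^ gam := by positivity
          linarith
  · have h1 : (((PT T).powerset.filter (fun S => FF S ≤ x)).card : ℝ) ≤
        (((PT T).powerset.filter (fun S => FF S ≤ 2)).card : ℝ) := by
      have : ((PT T).powerset.filter (fun S => FF S ≤ x)).card ≤ ((PT T).powerset.filter (fun S => FF S ≤ 2)).card := by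
        apply card_le_card
        intro S hS
        rw [mem_filter] at hS ⊢
        exact ⟨hS.1, by linarith [hS.2]⟩
      exact_mod_cast this
    refine h1.trans ((hC 2 le_rfl T).trans ?_)
    have h2 : (Real.log 2) ^ gam ≤ (Real.log Y) ^ gam := Real.rpow_le_rpow hl2.le hlY gam_pos.le
    have h3 : 0 ≤ (Real.log Y) ^ gam := Real.rpow_nonneg (hl2.le.trans hlY) _
    calc C * 2 * (Real.log 2) ^ gam ≤ C * 2 * (Real.log Y) ^ gam := by gcongr
      _ ≤ 2 * C * x * (Real.log Y) ^ gam := by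
          have : C * 2 * (Real.log Y) ^ gam * 1 ≤ C * 2 * (Real.log Y) ^ gam * x :=
            mul_le_mul_of_nonneg_left hx (by positivity)
          linarith

/-- sums of the large weights -/
theorem ser_low : ∃ C : ℝ, 0 < C ∧ ∀ Y : ℝ, 2 ≤ Y → ∀ T : ℕ,
    ∑ S ∈ (PT T).powerset.filter (fun S => FF S ≤ Y), (FF S) ^ (-(3/4):ℝ) ≤ C * Y ^ (1/4:ℝ) * (Real.log Y) ^ gam := by
  classical
  obtain ⟨C, hC0, hC⟩ := count_up'
  set q : ℝ := (2:ℝ) ^ (-(1/4):ℝ) with hq
  have hq0 : 0 < q := by rw [hq]; positivity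
  have hq1 : q < 1 := by rw [hq]; exact Real.rpow_lt_one_of_one_lt_of_neg (by norm_num) (by norm_num)
  refine ⟨C * 2 ^ (3/4:ℝ) * (1 - q)⁻¹, by
    have : 0 < 1 - q := by linarith
    positivity, ?_⟩
  intro Y hY T
  have hY0 : 0 < Y := by linarith
  set G := (PT T).powerset.filter (fun S => FF S ≤ Y) with hG
  set J := Nat.log 2 ⌊Y⌋₊ + 1 with hJ
  have hGF : ∀ S ∈ G, 1 ≤ FF S ∧ FF S ≤ Y := by
    intro S hS
    rw [hG, mem_filter, mem_powerset] at hS
    exact ⟨FF_ge hS.1, hS.2⟩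
  have h1 : ∀ S ∈ G, (FF S) ^ (-(3/4):ℝ) ≤
      ∑ j ∈ range J, (if FF S ≤ Y / 2 ^ j then (Y / 2 ^ (j + 1)) ^ (-(3/4):ℝ) else 0) := by
    intro S hS
    obtain ⟨g1, g2⟩ := hGF S hS
    have hx : 1 ≤ Y / FF S := by rw [le_div_iff₀ (by linarith)]; linarith
    obtain ⟨k1, k2⟩ := log_floor hx
    set j := Nat.log 2 ⌊Y / FF S⌋₊ with hj
    have hjJ : j ∈ range J := by
      rw [mem_range, hJ, Nat.lt_succ_iff, hj]
      apply Nat.log_mono_right
      apply Nat.floor_le_floor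
      exact div_le_self hY0.le g1
    have h2 := single_le_sum (f := fun j => (if FF S ≤ Y / 2 ^ j then (Y / 2 ^ (j + 1)) ^ (-(3/4):ℝ) else 0))
      (fun i _ => by split_ifs <;> positivity) hjJ
    refine le_trans ?_ h2
    have h3 : FF S ≤ Y / 2 ^ j := by
      rw [le_div_iff₀ (by positivity)]
      rw [le_div_iff₀ (by linarith)] at k1
      linarith
    simp only [if_pos h3]
    apply Real.rpow_le_rpow_of_nonpos (by positivity) _ (by norm_num)
    rw [div_le_iff₀ (by positivity)]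
    rw [div_lt_iff₀ (by linarith)] at k2
    linarith
  refine (sum_le_sum h1).trans ?_
  rw [sum_comm]
  have h2 : ∀ j ∈ range J, ∑ S ∈ G, (if FF S ≤ Y / 2 ^ j then (Y / 2 ^ (j + 1)) ^ (-(3/4):ℝ) else 0) ≤
      C * 2 ^ (3/4:ℝ) * Y ^ (1/4:ℝ) * (Real.log Y) ^ gam * q ^ j := by
    intro j hj
    rw [mem_range, hJ, Nat.lt_succ_iff] at hj
    have h2j : (2:ℝ) ^ j ≤ Y := by
      have := (log_floor (by linarith : 1 ≤ Y)).1
      exact (pow_le_pow_right₀ (by norm_num) hj).trans this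
    have hx1 : 1 ≤ Y / 2 ^ j := by rw [le_div_iff₀ (by positivity)]; linarith
    have hx2 : Y / 2 ^ j ≤ Y := div_le_self hY0.le (one_le_pow₀ (by norm_num))
    rw [← sum_filter, sum_const, nsmul_eq_mul]
    have h3 : ((G.filter (fun S => FF S ≤ Y / 2 ^ j)).card : ℝ) ≤ C * (Y / 2 ^ j) * (Real.log Y) ^ gam := by
      refine le_trans ?_ (hC Y hY (Y / 2 ^ j) hx1 hx2 T)
      have : (G.filter (fun S => FF S ≤ Y / 2 ^ j)).card ≤ ((PT T).powerset.filter (fun S => FF S ≤ Y / 2 ^ j)).card := by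
        apply card_le_card
        intro S hS
        rw [mem_filter] at hS ⊢
        exact ⟨(mem_filter.mp hS.1).1, hS.2⟩
      exact_mod_cast this
    have hlog0 : 0 ≤ (Real.log Y) ^ gam := by
      have := Real.log_nonneg (by linarith : 1 ≤ Y)
      positivity
    calc ((G.filter (fun S => FF S ≤ Y / 2 ^ j)).card : ℝ) * (Y / 2 ^ (j + 1)) ^ (-(3/4):ℝ)
        ≤ (C * (Y / 2 ^ j) * (Real.log Y) ^ gam) * (Y / 2 ^ (j + 1)) ^ (-(3/4):ℝ) :=
          mul_le_mul_of_nonneg_right h3 (by positivity)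
      _ = C * (Real.log Y) ^ gam * ((Y / 2 ^ j) * (Y / 2 ^ (j + 1)) ^ (-(3/4):ℝ)) := by ring
      _ = C * (Real.log Y) ^ gam * (2 ^ (3/4:ℝ) * Y ^ (1/4:ℝ) * q ^ j) := by
          congr 1
          have e1 : Y / 2 ^ j = Y * (2:ℝ) ^ (-(j:ℝ)) := by
            rw [Real.rpow_neg (by norm_num), Real.rpow_natCast, div_eq_mul_inv]
          have e2 : Y / 2 ^ (j + 1) = Y * (2:ℝ) ^ (-((j:ℝ) + 1)) := by
            rw [Real.rpow_neg (by norm_num), div_eq_mul_inv]
            congr 2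
            rw [← Real.rpow_natCast]
            push_cast
            rfl
          rw [e1, e2, Real.mul_rpow hY0.le (by positivity), ← Real.rpow_mul (by norm_num), hq, ← Real.rpow_natCast,
            ← Real.rpow_mul (by norm_num)]
          have e3 : Y * Y ^ (-(3/4):ℝ) = Y ^ (1/4:ℝ) := by
            nth_rewrite 1 [← Real.rpow_one Y]
            rw [← Real.rpow_add hY0]
            norm_num
          have e4 : (2:ℝ) ^ (-(j:ℝ)) * (2:ℝ) ^ (-((j:ℝ) + 1) * -(3/4)) = (2:ℝ) ^ (3/4:ℝ) * (2:ℝ) ^ (-(1/4) * (j:ℝ)) := by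
            rw [← Real.rpow_add (by norm_num), ← Real.rpow_add (by norm_num)]
            congr 1; ring
          calc Y * (2:ℝ) ^ (-(j:ℝ)) * (Y ^ (-(3/4):ℝ) * (2:ℝ) ^ (-((j:ℝ) + 1) * -(3/4)))
              = (Y * Y ^ (-(3/4):ℝ)) * ((2:ℝ) ^ (-(j:ℝ)) * (2:ℝ) ^ (-((j:ℝ) + 1) * -(3/4))) := by ring
            _ = _ := by rw [e3, e4]; ring
      _ = _ := by ring
  refine (sum_le_sum h2).trans ?_
  rw [← mul_sum]
  have h3 : ∑ j ∈ range J, q ^ j ≤ (1 - q)⁻¹ := by
    have := (summable_geometric_of_lt_one hq0.le hq1).sum_le_tsum (range J) (fun _ _ => by positivity)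
    rwa [tsum_geometric_of_lt_one hq0.le hq1] at this
  have hlog0 : 0 ≤ (Real.log Y) ^ gam := by
    have := Real.log_nonneg (by linarith : 1 ≤ Y)
    positivity
  calc C * 2 ^ (3/4:ℝ) * Y ^ (1/4:ℝ) * (Real.log Y) ^ gam * ∑ j ∈ range J, q ^ j
      ≤ C * 2 ^ (3/4:ℝ) * Y ^ (1/4:ℝ) * (Real.log Y) ^ gam * (1 - q)⁻¹ :=
        mul_le_mul_of_nonneg_left h3 (by positivity)
    _ = _ := by ring

/-- sums of the squares of the small weights -/
theorem ser_high : ∃ C : ℝ, 0 < C ∧ ∀ Y : ℝ, 2 ≤ Y → ∀ T : ℕ,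
    ∑ S ∈ (PT T).powerset.filter (fun S => Y < FF S), (FF S) ^ (-(3/2):ℝ) ≤
      C * Y ^ (-(1/2):ℝ) * (Real.log Y) ^ gam := by
  classical
  obtain ⟨C, hC0, hC⟩ := count_up
  set q : ℝ := (2:ℝ) ^ (-(1/2):ℝ) with hq
  have hq0 : 0 < q := by rw [hq]; positivity
  have hq1 : q < 1 := by rw [hq]; exact Real.rpow_lt_one_of_one_lt_of_neg (by norm_num) (by norm_num)
  have hsum : Summable fun j : ℕ => ((j:ℝ) + 2) ^ 2 * q ^ j := by
    have h0 := summable_pow_mul_geometric_of_norm_lt_one (R := ℝ) 2 (r := q) (by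
      rw [Real.norm_eq_abs, abs_of_pos hq0]; exact hq1)
    have h1 := summable_pow_mul_geometric_of_norm_lt_one (R := ℝ) 1 (r := q) (by
      rw [Real.norm_eq_abs, abs_of_pos hq0]; exact hq1)
    have h2 := (summable_geometric_of_lt_one hq0.le hq1).mul_left 4
    refine ((h0.add (h1.mul_left 4)).add h2).congr fun j => ?_
    rw [pow_one]; ring
  set Z := ∑' j : ℕ, ((j:ℝ) + 2) ^ 2 * q ^ j with hZ
  have hZ0 : 0 ≤ Z := tsum_nonneg fun j => by positivity
  refine ⟨2 * C * (Z + 1), by positivity, ?_⟩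
  intro Y hY T
  have hY0 : 0 < Y := by linarith
  have hlY : 0 < Real.log Y := Real.log_pos (by linarith)
  set G := (PT T).powerset.filter (fun S => Y < FF S) with hG
  have hGF : ∀ S ∈ G, Y < FF S := fun S hS => (mem_filter.mp hS).2
  set J := G.sup (fun S => Nat.log 2 ⌊FF S / Y⌋₊) + 1 with hJ
  have h1 : ∀ S ∈ G, (FF S) ^ (-(3/2):ℝ) ≤
      ∑ j ∈ range J, (if FF S ≤ 2 ^ (j + 1) * Y then (2 ^ j * Y) ^ (-(3/2):ℝ) else 0) := by
    intro S hS
    have g1 := hGF S hS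
    have hx : 1 ≤ FF S / Y := by rw [le_div_iff₀ hY0]; linarith
    obtain ⟨k1, k2⟩ := log_floor hx
    set j := Nat.log 2 ⌊FF S / Y⌋₊ with hj
    have hjJ : j ∈ range J := by
      rw [mem_range, hJ, Nat.lt_succ_iff]
      exact le_sup (f := fun S => Nat.log 2 ⌊FF S / Y⌋₊) hS
    have h2 := single_le_sum (f := fun j => (if FF S ≤ 2 ^ (j + 1) * Y then (2 ^ j * Y) ^ (-(3/2):ℝ) else 0))
      (fun i _ => by split_ifs <;> positivity) hjJ
    refine le_trans ?_ h2
    rw [div_lt_iff₀ hY0] at k2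
    rw [le_div_iff₀ hY0] at k1
    simp only [if_pos k2.le]
    exact Real.rpow_le_rpow_of_nonpos (by positivity) k1 (by norm_num)
  refine (sum_le_sum h1).trans ?_
  rw [sum_comm]
  have h2 : ∀ j ∈ range J, ∑ S ∈ G, (if FF S ≤ 2 ^ (j + 1) * Y then (2 ^ j * Y) ^ (-(3/2):ℝ) else 0) ≤
      2 * C * Y ^ (-(1/2):ℝ) * (Real.log Y) ^ gam * (((j:ℝ) + 2) ^ 2 * q ^ j) := by
    intro j _
    rw [← sum_filter, sum_const, nsmul_eq_mul]
    have h2j : (1:ℝ) ≤ 2 ^ (j + 1) := one_le_pow₀ (by norm_num)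
    have h3 : ((G.filter (fun S => FF S ≤ 2 ^ (j + 1) * Y)).card : ℝ) ≤
        C * (2 ^ (j + 1) * Y) * (((j:ℝ) + 2) ^ 2 * (Real.log Y) ^ gam) := by
      have h4 : ((G.filter (fun S => FF S ≤ 2 ^ (j + 1) * Y)).card : ℝ) ≤
          (((PT T).powerset.filter (fun S => FF S ≤ 2 ^ (j + 1) * Y)).card : ℝ) := by
        have : (G.filter (fun S => FF S ≤ 2 ^ (j + 1) * Y)).card ≤
            ((PT T).powerset.filter (fun S => FF S ≤ 2 ^ (j + 1) * Y)).card := by
          apply card_le_card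
          intro S hS
          rw [mem_filter] at hS ⊢
          exact ⟨(mem_filter.mp hS.1).1, hS.2⟩
        exact_mod_cast this
      refine h4.trans ((hC (2 ^ (j + 1) * Y) (by nlinarith) T).trans ?_)
      apply mul_le_mul_of_nonneg_left _ (by positivity)
      have h5 : Real.log (2 ^ (j + 1) * Y) ≤ ((j:ℝ) + 2) * Real.log Y := by
        rw [Real.log_mul (by positivity) hY0.ne', Real.log_pow]
        push_cast
        have := Real.log_le_log (by norm_num) hY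
        have hj0 : (0:ℝ) ≤ j := Nat.cast_nonneg j
        nlinarith
      have h6 : 0 ≤ Real.log (2 ^ (j + 1) * Y) := Real.log_nonneg (by nlinarith)
      have hj1 : (1:ℝ) ≤ (j:ℝ) + 2 := by
        have hj0 : (0:ℝ) ≤ j := Nat.cast_nonneg j
        linarith
      calc (Real.log (2 ^ (j + 1) * Y)) ^ gam ≤ (((j:ℝ) + 2) * Real.log Y) ^ gam :=
            Real.rpow_le_rpow h6 h5 gam_pos.le
        _ = ((j:ℝ) + 2) ^ gam * (Real.log Y) ^ gam := Real.mul_rpow (by linarith) hlY.le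
        _ ≤ ((j:ℝ) + 2) ^ 2 * (Real.log Y) ^ gam := by
            apply mul_le_mul_of_nonneg_right _ (by positivity)
            calc ((j:ℝ) + 2) ^ gam ≤ ((j:ℝ) + 2) ^ (2:ℝ) :=
                  Real.rpow_le_rpow_of_exponent_le hj1 (by linarith [gam_lt])
              _ = _ := by
                rw [← Real.rpow_natCast]
                norm_num
    calc ((G.filter (fun S => FF S ≤ 2 ^ (j + 1) * Y)).card : ℝ) * (2 ^ j * Y) ^ (-(3/2):ℝ)
        ≤ (C * (2 ^ (j + 1) * Y) * (((j:ℝ) + 2) ^ 2 * (Real.log Y) ^ gam)) * (2 ^ j * Y) ^ (-(3/2):ℝ) :=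
          mul_le_mul_of_nonneg_right h3 (by positivity)
      _ = C * (((j:ℝ) + 2) ^ 2 * (Real.log Y) ^ gam) * ((2 ^ (j + 1) * Y) * (2 ^ j * Y) ^ (-(3/2):ℝ)) := by ring
      _ = C * (((j:ℝ) + 2) ^ 2 * (Real.log Y) ^ gam) * (2 * Y ^ (-(1/2):ℝ) * q ^ j) := by
          congr 1
          have e1 : (2:ℝ) ^ (j + 1) * Y = 2 * (2 ^ j * Y) := by rw [pow_succ]; ring
          have h0 : (0:ℝ) < 2 ^ j * Y := by positivity
          have e2 : (2 ^ j * Y) * (2 ^ j * Y) ^ (-(3/2):ℝ) = (2 ^ j * Y) ^ (-(1/2):ℝ) := by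
            nth_rewrite 1 [← Real.rpow_one (2 ^ j * Y)]
            rw [← Real.rpow_add h0]
            norm_num
          have e3 : ((2:ℝ) ^ j * Y) ^ (-(1/2):ℝ) = q ^ j * Y ^ (-(1/2):ℝ) := by
            rw [Real.mul_rpow (by positivity) hY0.le, hq, ← Real.rpow_natCast, ← Real.rpow_natCast,
              ← Real.rpow_mul (by norm_num), ← Real.rpow_mul (by norm_num)]
            congr 2; ring
          rw [e1, mul_assoc, e2, e3]; ring
      _ = _ := by ring
  refine (sum_le_sum h2).trans ?_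
  rw [← mul_sum]
  have h3 : ∑ j ∈ range J, ((j:ℝ) + 2) ^ 2 * q ^ j ≤ Z := hsum.sum_le_tsum _ fun j _ => by positivity
  calc 2 * C * Y ^ (-(1/2):ℝ) * (Real.log Y) ^ gam * ∑ j ∈ range J, ((j:ℝ) + 2) ^ 2 * q ^ j
      ≤ 2 * C * Y ^ (-(1/2):ℝ) * (Real.log Y) ^ gam * (Z + 1) :=
        mul_le_mul_of_nonneg_left (by linarith) (by positivity)
    _ = _ := by ring

end Run7.h113.DM
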