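import Mathlib
import Pool.Agent.Run7.h113.Coef
import Pool.Agent.Run7.h113.DM.Ser
import Pool.Agent.H383.DivB
import Pool.Agent.H383.GaussW
import Pool.Agent.H383.BlkB
import Pool.Agent.Helper112.Arith

/-!
The coefficients of the divisor problem sorted by square classes.
-/

set_option autoImplicit false

open Finset
open Pool.Agent.H452R2.Om (zz zz_pos zz_gt_two zz_lt_three)
open Pool.Agent.H383.Gauss (InC)
open Pool.Agent.H383.Gen (U bT inC_unique)
open Pool.Agent.H383.Div (ad ad_nonneg)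
open Pool.Agent.H387R2.Vor (dv)
open Run7.h113 (dsum sf_exists pf_inj zz_pow)

namespace Run7.h113.DM

/-- local factor of the squarefree part -/
def gp (p : ℕ) : ℕ := if p = 2 then 1 else 2

/-- the squarefree part of the bound -/
def gD (D : ℕ) : ℕ := ∏ p ∈ D.primeFactors, gp p

lemma dv_le {D k : ℕ} (hD : Squarefree D) (hk : 1 ≤ k) :
    (D * k ^ 2).divisors.card ≤ 2 * gD D * (k ^ 2).divisors.card := by
  classical
  have hD0 : D ≠ 0 := hD.ne_zero
  have hk0 : k ^ 2 ≠ 0 := by positivity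
  have hpf : (D * k ^ 2).primeFactors = D.primeFactors ∪ (k ^ 2).primeFactors := Nat.primeFactors_mul hD0 hk0
  set S := (D * k ^ 2).primeFactors with hS
  have h0 : (D * k ^ 2).divisors.card = ∏ p ∈ S, ((D * k ^ 2).factorization p + 1) := by
    rw [Nat.card_divisors (mul_ne_zero hD0 hk0)]
  have h1 : 2 ^ D.primeFactors.card = ∏ p ∈ S, (if p ∈ D.primeFactors then 2 else 1) := by
    rw [← prod_subset (s₁ := D.primeFactors) (s₂ := S)]
    · rw [← prod_const]
      apply prod_congr rfl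
      intro p hp
      rw [if_pos hp]
    · rw [hpf]; exact subset_union_left
    · intro p _ hp
      rw [if_neg hp]
  have h2 : (k ^ 2).divisors.card = ∏ p ∈ S, ((k ^ 2).factorization p + 1) := by
    rw [Nat.card_divisors hk0]
    apply prod_subset
    · rw [hpf]; exact subset_union_right
    · intro p _ hp
      have : (k ^ 2).factorization p = 0 := by
        rw [← Nat.support_factorization] at hp
        exact Finsupp.notMem_support_iff.mp hp
      rw [this, zero_add]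
  have h3 : 2 ^ D.primeFactors.card ≤ 2 * gD D := by
    unfold gD
    have e1 : ∏ p ∈ D.primeFactors, (if p = 2 then 2 else 1) ≤ 2 := by
      rw [prod_ite_eq' D.primeFactors 2 (fun _ => 2)]
      split_ifs <;> norm_num
    calc 2 ^ D.primeFactors.card = ∏ _p ∈ D.primeFactors, 2 := by rw [prod_const]
      _ = (∏ p ∈ D.primeFactors, (if p = 2 then 2 else 1)) * ∏ p ∈ D.primeFactors, gp p := by
          rw [← prod_mul_distrib]
          apply prod_congr rfl
          intro p _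
          unfold gp
          split_ifs <;> norm_num
      _ ≤ _ := Nat.mul_le_mul_right _ e1
  refine le_trans ?_ (Nat.mul_le_mul_right _ h3)
  rw [h0, h1, h2, ← prod_mul_distrib]
  apply prod_le_prod'
  intro p hp
  have hpp : p.Prime := Nat.prime_of_mem_primeFactors hp
  have hf : (D * k ^ 2).factorization p = D.factorization p + (k ^ 2).factorization p := by
    rw [Nat.factorization_mul hD0 hk0]; rfl
  have hDle := hD.natFactorization_le_one p
  rw [hf]
  by_cases hmem : p ∈ D.primeFactors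
  · rw [if_pos hmem]
    omega
  · have hD1 : D.factorization p = 0 := by
      rw [← Nat.support_factorization] at hmem
      exact Finsupp.notMem_support_iff.mp hmem
    rw [hD1, if_neg hmem]
    omega

/-- **bound for the number of divisors** -/
theorem dv_le_gD {D k : ℕ} (hD : Squarefree D) (hk : 1 ≤ k) :
    dv (D * k ^ 2) ≤ 2 * gD D * ((k ^ 2).divisors.card : ℝ) := by
  unfold dv
  exact_mod_cast dv_le hD hk

/-- weight of a square class -/
noncomputable def wt (D : ℕ) : ℝ := gD D * (D:ℝ) ^ (-(3/4):ℝ)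

lemma wt_nonneg (D : ℕ) : 0 ≤ wt D := by unfold wt; positivity

lemma gp_fp {p : ℕ} (_hp : p.Prime) : (gp p : ℝ) * (p:ℝ) ^ (-(3/4):ℝ) = (fp p) ^ (-(3/4):ℝ) := by
  unfold gp fp
  by_cases h2 : p = 2
  · rw [if_pos h2, if_pos h2, h2]; norm_num
  · rw [if_neg h2, if_neg h2, Real.div_rpow (Nat.cast_nonneg _) zz_pos.le, Real.rpow_neg zz_pos.le, zz_pow]
    push_cast
    field_simp


lemma FF_nonneg (S : Finset ℕ) : 0 ≤ FF S := by
  unfold FF
  apply prod_nonneg
  intro p _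
  have := zz_pos
  unfold fp
  split_ifs <;> positivity

lemma wt_eq {D : ℕ} (hD : Squarefree D) (_h : gD D ≠ 0) : wt D = (FF D.primeFactors) ^ (-(3/4):ℝ) := by
  unfold wt
  have h1 : (D:ℝ) ^ (-(3/4):ℝ) = ∏ p ∈ D.primeFactors, (p:ℝ) ^ (-(3/4):ℝ) := by
    rw [Real.finsetProd_rpow _ _ (fun i _ => Nat.cast_nonneg i), ← Nat.cast_prod, Nat.prod_primeFactors_of_squarefree hD]
  rw [h1]
  unfold gD FF
  push_cast
  rw [← prod_mul_distrib, ← Real.finsetProd_rpow]
  · apply prod_congr rfl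
    intro p hp
    exact gp_fp (Nat.prime_of_mem_primeFactors hp)
  · intro p _
    have := zz_pos
    unfold fp
    split_ifs <;> positivity

lemma pf_sub {D T : ℕ} (hT : D ≤ T) (_h : gD D ≠ 0) : D.primeFactors ⊆ PT T := by
  intro p hp
  have hpp := Nat.prime_of_mem_primeFactors hp
  rw [mem_PT]
  have h2 : D ≠ 0 := by
    rintro rfl
    simp at hp
  exact ⟨⟨hpp.two_le, (Nat.le_of_dvd (Nat.pos_of_ne_zero h2) (Nat.dvd_of_mem_primeFactors hp)).trans hT⟩, hpp⟩

/-- sum over squarefree numbers -/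
lemma sum_sqf {T : ℕ} {p : ℝ → Prop} [DecidablePred p] {q : ℝ} :
    ∑ D ∈ (Icc 1 T).filter (fun D => Squarefree D ∧ gD D ≠ 0 ∧ p (FF D.primeFactors)), (FF D.primeFactors) ^ q ≤
      ∑ S ∈ (PT T).powerset.filter (fun S => p (FF S)), (FF S) ^ q := by
  classical
  rw [← sum_image (f := fun S => (FF S) ^ q) (g := fun D : ℕ => D.primeFactors)
    (s := (Icc 1 T).filter (fun D => Squarefree D ∧ gD D ≠ 0 ∧ p (FF D.primeFactors)))]
  · apply sum_le_sum_of_subset_of_nonneg
    · intro S hS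
      rw [mem_image] at hS
      obtain ⟨D, hD, rfl⟩ := hS
      rw [mem_filter, mem_Icc] at hD
      rw [mem_filter, mem_powerset]
      exact ⟨pf_sub hD.1.2 hD.2.2.1, hD.2.2.2⟩
    · intro S _ _
      exact Real.rpow_nonneg (FF_nonneg S) _
  · exact pf_inj _ fun D hD => (mem_filter.mp hD).2.1

/-- coefficients of a square class -/
lemma ad_class {D k : ℕ} (hD : Squarefree D) (hk : 1 ≤ k) :
    ad (D * k ^ 2) ≤ 2 * wt D * (((k ^ 2).divisors.card : ℝ) * (k:ℝ) ^ (-(3/2):ℝ)) := by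
  have h1 := dv_le_gD hD hk
  have hpi := Real.pi_pos
  have hD0 : (0:ℝ) ≤ D := Nat.cast_nonneg D
  have hk0 : (0:ℝ) < k := by exact_mod_cast hk
  unfold ad wt
  have e1 : (((D * k ^ 2 : ℕ) : ℝ)) ^ (-(3/4):ℝ) = (D:ℝ) ^ (-(3/4):ℝ) * (k:ℝ) ^ (-(3/2):ℝ) := by
    push_cast
    rw [Real.mul_rpow hD0 (by positivity), ← Real.rpow_natCast, ← Real.rpow_mul hk0.le]
    norm_num
  have e2 : 1 / (Real.pi * √2) ≤ 1 := by
    rw [div_le_one (by positivity)]
    have h3 := Real.pi_gt_three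
    have h4 : (1:ℝ) ≤ √2 := Real.one_le_sqrt.mpr (by norm_num)
    nlinarith
  rw [e1]
  have h5 : 0 ≤ (D:ℝ) ^ (-(3/4):ℝ) * (k:ℝ) ^ (-(3/2):ℝ) := by positivity
  have h6 : 0 ≤ dv (D * k ^ 2) := by unfold dv; positivity
  calc dv (D * k ^ 2) * ((D:ℝ) ^ (-(3/4):ℝ) * (k:ℝ) ^ (-(3/2):ℝ)) * (1 / (Real.pi * √2))
      ≤ dv (D * k ^ 2) * ((D:ℝ) ^ (-(3/4):ℝ) * (k:ℝ) ^ (-(3/2):ℝ)) * 1 :=
        mul_le_mul_of_nonneg_left e2 (mul_nonneg h6 h5)
    _ ≤ (2 * gD D * ((k ^ 2).divisors.card : ℝ)) * ((D:ℝ) ^ (-(3/4):ℝ) * (k:ℝ) ^ (-(3/2):ℝ)) := by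
        rw [mul_one]
        exact mul_le_mul_of_nonneg_right h1 h5
    _ = _ := by ring

/-- the sum over a square class -/
theorem bT_ad : ∃ C : ℝ, 0 < C ∧ ∀ D : ℕ, Squarefree D → ∀ T : Finset ℕ, (∀ m ∈ T, 1 ≤ m ∧ InC D m) →
    bT ad T ≤ C * wt D := by
  classical
  set Z := ∑' k : ℕ, ((k ^ 2).divisors.card : ℝ) * (k:ℝ) ^ (-(3/2):ℝ) with hZ
  have hZ0 : 0 ≤ Z := tsum_nonneg fun k => by positivity
  have hpi := Real.pi_pos
  refine ⟨2 * (Z + 1), by positivity, ?_⟩
  intro D hD T hT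
  choose! f hf using fun m (hm : m ∈ T) => (hT m hm).2
  have hinj : Set.InjOn f T := by
    intro m hm m' hm' h
    rw [hf m hm, hf m' hm', h]
  have hf0 : ∀ m ∈ T, 1 ≤ f m := by
    intro m hm
    by_contra h
    have h0 : f m = 0 := by omega
    have h1 := hf m hm
    have h2 := (hT m hm).1
    rw [h0] at h1
    simp at h1
    omega
  unfold bT
  have h1 : ∀ m ∈ T, |ad m| ≤ 2 * wt D * (((f m ^ 2).divisors.card : ℝ) * ((f m : ℕ):ℝ) ^ (-(3/2):ℝ)) := by
    intro m hm
    rw [abs_of_nonneg (ad_nonneg m)]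
    conv_lhs => rw [hf m hm]
    exact ad_class hD (hf0 m hm)
  have hw := wt_nonneg D
  calc ∑ m ∈ T, |ad m| ≤ ∑ m ∈ T, 2 * wt D * (((f m ^ 2).divisors.card : ℝ) * ((f m : ℕ):ℝ) ^ (-(3/2):ℝ)) :=
        sum_le_sum h1
    _ = 2 * wt D * ∑ m ∈ T, (((f m ^ 2).divisors.card : ℝ) * ((f m : ℕ):ℝ) ^ (-(3/2):ℝ)) := by rw [mul_sum]
    _ = 2 * wt D * ∑ k ∈ T.image f, (((k ^ 2).divisors.card : ℝ) * (k:ℝ) ^ (-(3/2):ℝ)) := by
        rw [sum_image hinj]
    _ ≤ 2 * wt D * Z := by
        gcongr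
        exact dsum.sum_le_tsum _ fun k _ => by positivity
    _ ≤ _ := by
        have : 2 * wt D * Z ≤ 2 * wt D * (Z + 1) := by
          apply mul_le_mul_of_nonneg_left _ (by positivity)
          linarith
        linarith

/-- members of the square classes of small weight -/
def Lw (Y : ℝ) (m : ℕ) : Prop := ∃ D, Squarefree D ∧ InC D m ∧ FF D.primeFactors ≤ Y

open Classical in
/-- coefficients of the classes of small `FF` -/
noncomputable def alo (Y : ℝ) (m : ℕ) : ℝ := if Lw Y m then ad m else 0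

open Classical in
/-- the other coefficients -/
noncomputable def ahi (Y : ℝ) (m : ℕ) : ℝ := if Lw Y m then 0 else ad m

lemma U_split (Y φ R : ℝ) (M : ℕ) : U ad φ R M = U (alo Y) φ R M + U (ahi Y) φ R M := by
  unfold U
  rw [← sum_add_distrib]
  apply sum_congr rfl
  intro m _
  unfold alo ahi
  split_ifs <;> ring

lemma ahi_abs (Y : ℝ) (m : ℕ) : |ahi Y m| ≤ ad m := by
  unfold ahi
  have := ad_nonneg m
  split_ifs
  · simpa using this
  · rw [abs_of_nonneg this]

/-- **the classes of large weight: bound for the supremum** -/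
theorem low_sup : ∃ C : ℝ, 0 < C ∧ ∀ Y : ℝ, 2 ≤ Y → ∀ (φ R : ℝ) (M : ℕ),
    |U (alo Y) φ R M| ≤ C * Y ^ (1/4:ℝ) * (Real.log Y) ^ gam := by
  classical
  obtain ⟨C1, hC1, hb⟩ := bT_ad
  obtain ⟨C2, hC2, hs⟩ := ser_low
  refine ⟨C1 * C2, by positivity, ?_⟩
  intro Y hY φ R M
  set Q := (Icc 1 (M^2)).filter (fun D => Squarefree D ∧ gD D ≠ 0 ∧ FF D.primeFactors ≤ Y) with hQ
  set Q' := (Icc 1 (M^2)).filter (fun D => Squarefree D ∧ FF D.primeFactors ≤ Y) with hQ'
  have h1 : |U (alo Y) φ R M| ≤ ∑ m ∈ Icc 1 (M^2), alo Y m := by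
    unfold U
    refine (abs_sum_le_sum_abs _ _).trans (sum_le_sum fun m _ => ?_)
    have h0 : 0 ≤ alo Y m := by
      unfold alo
      split_ifs
      · exact ad_nonneg m
      · exact le_rfl
    rw [abs_mul, abs_of_nonneg h0]
    exact mul_le_of_le_one_right h0 (Real.abs_cos_le_one _)
  have h2 : ∑ m ∈ Icc 1 (M^2), alo Y m ≤ ∑ D ∈ Q', bT ad ((Icc 1 (M^2)).filter (InC D)) := by
    have h3 : ∀ m ∈ Icc 1 (M^2), alo Y m ≤ ∑ D ∈ Q', (if InC D m then |ad m| else 0) := by
      intro m hm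
      unfold alo
      split_ifs with hL
      · obtain ⟨D, hD1, hD2, hD3⟩ := hL
        rw [mem_Icc] at hm
        obtain ⟨D', hD', g1, g2⟩ := sf_exists hm.1 hm.2
        have hDD : D = D' := inC_unique hD1 g1 hm.1 hD2 g2
        have hmem : D ∈ Q' := by
          rw [hQ', mem_filter]
          exact ⟨hDD ▸ hD', hD1, hD3⟩
        have h4 := single_le_sum (f := fun D => (if InC D m then |ad m| else 0)) (fun i _ => by
          split_ifs
          · exact abs_nonneg _
          · exact le_rfl) hmem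
        simp only [if_pos hD2] at h4
        exact (le_abs_self _).trans h4
      · exact sum_nonneg fun i _ => by
          split_ifs
          · exact abs_nonneg _
          · exact le_rfl
    refine (sum_le_sum h3).trans ?_
    rw [sum_comm]
    apply sum_le_sum
    intro D _
    unfold bT
    rw [← sum_filter]
  have h3 : ∑ D ∈ Q', bT ad ((Icc 1 (M^2)).filter (InC D)) ≤ ∑ D ∈ Q', C1 * wt D := by
    apply sum_le_sum
    intro D hD
    rw [hQ', mem_filter] at hD
    apply hb D hD.2.1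
    intro m hm
    rw [mem_filter, mem_Icc] at hm
    exact ⟨hm.1.1, hm.2⟩
  have h4 : ∑ D ∈ Q', C1 * wt D = C1 * ∑ D ∈ Q, (FF D.primeFactors) ^ (-(3/4):ℝ) := by
    rw [← mul_sum]
    congr 1
    have hsub : Q ⊆ Q' := by
      intro D hD
      rw [hQ, mem_filter] at hD
      rw [hQ', mem_filter]
      exact ⟨hD.1, hD.2.1, hD.2.2.2⟩
    rw [← sum_subset hsub]
    · apply sum_congr rfl
      intro D hD
      rw [hQ, mem_filter] at hD
      exact wt_eq hD.2.1 hD.2.2.1
    · intro D hD hDn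
      rw [hQ', mem_filter] at hD
      have : gD D = 0 := by
        by_contra hne
        apply hDn
        rw [hQ, mem_filter]
        exact ⟨hD.1, hD.2.1, hne, hD.2.2⟩
      unfold wt
      rw [this]; simp
  have h5 := sum_sqf (T := M^2) (p := fun x => x ≤ Y) (q := -(3/4))
  have h6 := hs Y hY (M^2)
  calc |U (alo Y) φ R M| ≤ C1 * ∑ D ∈ Q, (FF D.primeFactors) ^ (-(3/4):ℝ) := by
        rw [← h4]; exact h1.trans (h2.trans h3)
    _ ≤ C1 * (C2 * Y ^ (1/4:ℝ) * (Real.log Y) ^ gam) := mul_le_mul_of_nonneg_left (h5.trans h6) hC1.le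
    _ = _ := by ring

open Classical in
/-- **the classes of small weight: bound for the variance** -/
theorem high_var : ∃ C : ℝ, 0 < C ∧ ∀ Y : ℝ, 2 ≤ Y → ∀ M : ℕ,
    ∑ s ∈ (Icc 1 (M^2)).filter (fun s => Squarefree s), (bT (ahi Y) ((Icc 1 (M^2)).filter (InC s))) ^ 2 ≤
      C * Y ^ (-(1/2):ℝ) * (Real.log Y) ^ gam := by
  obtain ⟨C1, hC1, hb⟩ := bT_ad
  obtain ⟨C2, hC2, hs⟩ := ser_high
  refine ⟨C1 ^ 2 * C2, by positivity, ?_⟩
  intro Y hY M
  set Q := (Icc 1 (M^2)).filter (fun D => Squarefree D ∧ gD D ≠ 0 ∧ Y < FF D.primeFactors) with hQ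
  have hbhi : ∀ T : Finset ℕ, bT (ahi Y) T ≤ bT ad T := by
    intro T
    unfold bT
    apply sum_le_sum
    intro m _
    exact (ahi_abs Y m).trans (le_abs_self _)
  have hb0 : ∀ T : Finset ℕ, 0 ≤ bT (ahi Y) T := fun T => sum_nonneg fun _ _ => abs_nonneg _
  have h1 : ∀ s ∈ (Icc 1 (M^2)).filter (fun s => Squarefree s), s ∉ Q →
      (bT (ahi Y) ((Icc 1 (M^2)).filter (InC s))) ^ 2 = 0 := by
    intro s hs1 hs2
    rw [mem_filter] at hs1
    have h0 : bT (ahi Y) ((Icc 1 (M^2)).filter (InC s)) = 0 := by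
      by_cases hg : gD s = 0
      · apply le_antisymm _ (hb0 _)
        refine (hbhi _).trans ((hb s hs1.2 _ fun m hm => by
          rw [mem_filter, mem_Icc] at hm
          exact ⟨hm.1.1, hm.2⟩).trans (le_of_eq ?_))
        unfold wt
        rw [hg]; simp
      · have hF : FF s.primeFactors ≤ Y := by
          by_contra hne
          apply hs2
          rw [hQ, mem_filter]
          exact ⟨hs1.1, hs1.2, hg, not_le.mp hne⟩
        unfold bT
        apply sum_eq_zero
        intro m hm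
        rw [mem_filter] at hm
        unfold ahi
        rw [if_pos ⟨s, hs1.2, hm.2, hF⟩, abs_zero]
    rw [h0]; simp
  have hsub : Q ⊆ (Icc 1 (M^2)).filter (fun s => Squarefree s) := by
    intro D hD
    rw [hQ, mem_filter] at hD
    rw [mem_filter]
    exact ⟨hD.1, hD.2.1⟩
  rw [← sum_subset hsub h1]
  have h2 : ∀ s ∈ Q, (bT (ahi Y) ((Icc 1 (M^2)).filter (InC s))) ^ 2 ≤ C1 ^ 2 * (FF s.primeFactors) ^ (-(3/2):ℝ) := by
    intro s hs1
    rw [hQ, mem_filter] at hs1
    have h3 : bT (ahi Y) ((Icc 1 (M^2)).filter (InC s)) ≤ C1 * wt s :=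
      (hbhi _).trans (hb s hs1.2.1 _ fun m hm => by
          rw [mem_filter, mem_Icc] at hm
          exact ⟨hm.1.1, hm.2⟩)
    have h4 : (FF s.primeFactors) ^ (-(3/2):ℝ) = (wt s) ^ 2 := by
      rw [wt_eq hs1.2.1 hs1.2.2.1, ← Real.rpow_natCast, ← Real.rpow_mul (FF_nonneg _)]
      norm_num
    rw [h4, ← mul_pow]
    exact pow_le_pow_left₀ (hb0 _) h3 2
  refine (sum_le_sum h2).trans ?_
  rw [← mul_sum]
  have h5 := sum_sqf (T := M^2) (p := fun x => Y < x) (q := -(3/2))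
  have h6 := hs Y hY (M^2)
  calc C1 ^ 2 * ∑ s ∈ Q, (FF s.primeFactors) ^ (-(3/2):ℝ) ≤ C1 ^ 2 * (C2 * Y ^ (-(1/2):ℝ) * (Real.log Y) ^ gam) :=
        mul_le_mul_of_nonneg_left (h5.trans h6) (by positivity)
    _ = _ := by ring

end Run7.h113.DM
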