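import Mathlib
import Pool.Agent.Run7.h113.LowB
import Pool.Agent.Run7.h113.DM.Up

/-!
Preparations for the lower bound (divisor problem).
-/

set_option autoImplicit false

open MeasureTheory Filter Topology Set Real
open Pool.Agent.H383.Gen (U Bd)
open Pool.Agent.H383.Div (ad ad_nonneg ad_Bd)
open Pool.Agent.R306.GP (Ctx Sq pt pt_pos pt_low pt_mono pt_cont AA AA_le AA_nonneg Cp Cp_pos ae_zero' ae_err mom_bd)
open Pool.Agent.H452R2.Om (zz zz_pos zz_gt_two zz_lt_three extract count_sets mert_all dv_prod)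
open Pool.Agent.H387R2.Vor (dv)

namespace Run7.h113.DM

/-- sets of squarefree numbers with large coefficients -/
lemma sqf_sets : ∃ c K0 : ℝ, 0 < c ∧ ∀ K : ℝ, K0 ≤ K → ∃ 𝓜 : Finset ℕ, (𝓜.card : ℝ) ≤ K ∧
      (∀ m ∈ 𝓜, Squarefree m ∧ (m:ℝ) ≤ K ^ 3) ∧ c * WW K ≤ ∑ m ∈ 𝓜, ad m := by
  classical
  have hpi := Real.pi_pos
  have hz := zz_gt_two
  obtain ⟨c, K0, hc, h⟩ := extract (a := fun m => if Squarefree m then ad m else 0)
    (fun m => by
      split_ifs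
      · exact ad_nonneg m
      · exact le_rfl) (b := 1 / (Real.pi * √2)) (by positivity) (fun _ => True) (β := zz) (by linarith)
    (count_sets (fun _ => True) (by linarith) mert_all) (by
      intro S hS
      have hsq : Squarefree (∏ p ∈ S, p) := by
        apply Finset.squarefree_prod_of_pairwise_isCoprime
        · intro i hi j hj hij
          simp only [Function.onFun]
          exact Nat.coprime_iff_isRelPrime.mp ((Nat.coprime_primes (hS i hi).1 (hS j hj).1).mpr hij)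
        · intro i hi
          exact (hS i hi).1.squarefree
      rw [if_pos hsq]
      unfold ad
      have h1 := dv_prod (S := S) (fun p hp => (hS p hp).1)
      have h2 : 0 ≤ ((∏ p ∈ S, p : ℕ) : ℝ) ^ (-(3/4):ℝ) := by positivity
      have h3 : 0 ≤ 1 / (Real.pi * √2) := by positivity
      calc 1 / (Real.pi * √2) * 2 ^ S.card * ((∏ p ∈ S, p : ℕ) : ℝ) ^ (-(3/4):ℝ)
          = 2 ^ S.card * ((∏ p ∈ S, p : ℕ) : ℝ) ^ (-(3/4):ℝ) * (1 / (Real.pi * √2)) := by ring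
        _ ≤ _ := by gcongr)
  refine ⟨c, K0, hc, fun K hK => ?_⟩
  obtain ⟨𝓜, h1, h2, h3⟩ := h K hK
  refine ⟨𝓜.filter Squarefree, ?_, ?_, ?_⟩
  · have : ((𝓜.filter Squarefree).card : ℝ) ≤ (𝓜.card : ℝ) := by exact_mod_cast Finset.card_filter_le _ _
    linarith
  · intro m hm
    rw [Finset.mem_filter] at hm
    exact ⟨hm.2, (h2 m hm.1).2⟩
  · rw [Finset.sum_filter]
    refine le_trans (le_of_eq ?_) h3
    unfold WW gam
    ring

variable {a b : ℕ → ℝ} {δ c d : ℝ}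

/-- growth of the extremal order under scaling -/
lemma WW_scale {x : ℝ} (hx : 8 ≤ x) : WW (8 * x) ≤ 8 * WW x := by
  unfold WW
  have hg := gam_pos
  have hg2 := gam_lt
  have hx0 : 0 < x := by linarith
  have hlx : 0 < Real.log x := Real.log_pos (by linarith)
  have h1 : Real.log (8 * x) ≤ 2 * Real.log x := by
    rw [Real.log_mul (by norm_num) hx0.ne']
    have := Real.log_le_log (by norm_num) hx
    linarith
  have h2 : (Real.log (8 * x)) ^ ((3/4) * gam) ≤ 4 * (Real.log x) ^ ((3/4) * gam) := by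
    calc (Real.log (8 * x)) ^ ((3/4) * gam) ≤ (2 * Real.log x) ^ ((3/4) * gam) :=
          Real.rpow_le_rpow (Real.log_nonneg (by linarith)) h1 (by positivity)
      _ = 2 ^ ((3/4) * gam) * (Real.log x) ^ ((3/4) * gam) := Real.mul_rpow (by norm_num) hlx.le
      _ ≤ 2 ^ (2:ℝ) * (Real.log x) ^ ((3/4) * gam) := by
          apply mul_le_mul_of_nonneg_right _ (by positivity)
          exact Real.rpow_le_rpow_of_exponent_le (by norm_num) (by linarith)
      _ = _ := by norm_num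
  have h3 : (8 * x) ^ (1/4:ℝ) ≤ 2 * x ^ (1/4:ℝ) := by
    rw [Real.mul_rpow (by norm_num) hx0.le]
    apply mul_le_mul_of_nonneg_right _ (by positivity)
    calc (8:ℝ) ^ (1/4:ℝ) ≤ (16:ℝ) ^ (1/4:ℝ) := Real.rpow_le_rpow (by norm_num) (by norm_num) (by norm_num)
      _ = ((2:ℝ) ^ (4:ℝ)) ^ (1/4:ℝ) := by norm_num
      _ = 2 := by rw [← Real.rpow_mul (by norm_num)]; norm_num
  calc (8 * x) ^ (1/4:ℝ) * (Real.log (8 * x)) ^ ((3/4) * gam) ≤ (2 * x ^ (1/4:ℝ)) * (4 * (Real.log x) ^ ((3/4) * gam)) := by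
        apply mul_le_mul h3 h2 (Real.rpow_nonneg (Real.log_nonneg (by linarith)) _) (by positivity)
    _ = _ := by ring

lemma WW_tendsto : Tendsto WW atTop atTop := by
  have h1 : Tendsto (fun x : ℝ => x ^ (1/4:ℝ)) atTop atTop := tendsto_rpow_atTop (by norm_num)
  refine tendsto_atTop_mono' atTop ?_ h1
  filter_upwards [eventually_ge_atTop (Real.exp 1)] with x hx
  have hx0 : 0 < x := (Real.exp_pos 1).trans_le hx
  have h2 : 1 ≤ Real.log x := by rw [Real.le_log_iff_exp_le hx0]; exact hx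
  unfold WW
  have h3 : 1 ≤ (Real.log x) ^ ((3/4) * gam) := Real.one_le_rpow h2 (by
    have := gam_pos
    positivity)
  have h4 : 0 ≤ x ^ (1/4:ℝ) := by positivity
  nlinarith

lemma cont_sq (φ : ℝ) (M : ℕ) (a b : ℕ → ℝ) (n : ℕ) : Continuous fun y => (U ad φ (pt a b n y) M) ^ 2 :=
  ((U_cont' ad φ M).comp (pt_cont a b n)).pow 2

lemma cont_Psi (S : Finset ℕ) (φ v : ℝ) (M : ℕ) (a b : ℕ → ℝ) (n : ℕ) :
    Continuous fun y => (Psi S ad φ v M (pt a b n y) - v) ^ 2 :=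
  (((Psi_cont ad φ v M).comp (pt_cont a b n)).sub continuous_const).pow 2

lemma int_split {F : ℝ → ℝ} (hF : Continuous F) (c d K A w : ℝ) :
    ∫ y in c..d, K * (A * F y + w) = K * (A * (∫ y in c..d, F y) + (d - c) * w) := by
  have hF2 : IntervalIntegrable (fun y => A * F y) volume c d := (hF.intervalIntegrable _ _).const_mul A
  have e : ∫ y in c..d, (A * F y + w) = (∫ y in c..d, A * F y) + ∫ _y in c..d, w :=
    intervalIntegral.integral_add hF2 intervalIntegrable_const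
  rw [intervalIntegral.integral_const_mul, e, intervalIntegral.integral_const_mul, intervalIntegral.integral_const,
    smul_eq_mul]

/-- pointwise bound for the test function -/
lemma Psi_sq (S : Finset ℕ) (φ v : ℝ) (M : ℕ) (R : ℝ) :
    (Psi S ad φ v M R - v) ^ 2 ≤ 4 ^ S.card * (4 * (U ad φ R M) ^ 2 + 6 * v ^ 2) := by
  unfold Psi
  set K := Kz S φ R with hK
  set u := U ad φ R M with hu
  have h0 : 0 ≤ K := Kz_nonneg φ R
  have h1 : K ≤ 2 ^ S.card := Kz_le φ R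
  have h2 : K ^ 2 ≤ 4 ^ S.card := by
    calc K ^ 2 ≤ (2 ^ S.card) ^ 2 := pow_le_pow_left₀ h0 h1 2
      _ = 4 ^ S.card := by rw [← pow_mul, mul_comm, pow_mul]; norm_num
  have h3 : (1:ℝ) ≤ 4 ^ S.card := one_le_pow₀ (by norm_num)
  have h4 : (u - v) ^ 2 ≤ 2 * u ^ 2 + 2 * v ^ 2 := by nlinarith [sq_nonneg (u + v)]
  have h5 : (K * (u - v) - v) ^ 2 ≤ 2 * (K ^ 2 * (u - v) ^ 2) + 2 * v ^ 2 := by
    nlinarith [sq_nonneg (K * (u - v) + v)]
  have h6 : K ^ 2 * (u - v) ^ 2 ≤ 4 ^ S.card * (2 * u ^ 2 + 2 * v ^ 2) :=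
    mul_le_mul h2 h4 (sq_nonneg _) (by positivity)
  have h7 : 2 * v ^ 2 ≤ 4 ^ S.card * (2 * v ^ 2) := le_mul_of_one_le_left (by positivity) h3
  calc (K * (u - v) - v) ^ 2 ≤ 2 * (K ^ 2 * (u - v) ^ 2) + 2 * v ^ 2 := h5
    _ ≤ 2 * (4 ^ S.card * (2 * u ^ 2 + 2 * v ^ 2)) + 4 ^ S.card * (2 * v ^ 2) := by linarith
    _ = _ := by ring

/-- the variance over a block -/
lemma blk_var (h : Sq a b δ) (hc : 0 < c) (hcd : c ≤ d) (φ : ℝ) : ∃ C : ℝ, 0 < C ∧ ∀ᶠ k : ℕ in atTop, ∀ S : Finset ℕ,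
    (S.card : ℝ) ≤ (k:ℝ) / 4 → (∀ m ∈ S, Squarefree m ∧ (m:ℝ) ≤ (k:ℝ) ^ 3) →
    ∀ v : ℝ, v = (1/4) * ∑ m ∈ S, ad m → 1 ≤ v →
      ∫ y in c..d, (∑ n ∈ Nk k, (Psi S ad φ v (MM n) (pt a b n y) - v)) ^ 2 ≤ C * v ^ 2 * 4 ^ k * (3/4 : ℝ) ^ k := by
  obtain ⟨Cs, hCs, hAA⟩ := AA_le ad_Bd
  obtain ⟨Cm, hCm, n0, hmom⟩ := mom_bd (φ := φ) ad_Bd h hc hcd dg 1
  have hsc : 0 < δ * c := mul_pos h.dpos hc
  have hb0 := h.pos 0
  have hdc : 0 ≤ d - c := by linarith
  refine ⟨4 * Cm + 6 * (d - c) + 1, by positivity, ?_⟩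
  have hQ : ∀ᶠ k : ℕ in atTop, 4 * Cs ^ 2 * (4 + 6 * (d - c)) / b 0 ≤ (4:ℝ) ^ k :=
    (tendsto_pow_atTop_atTop_of_one_lt (by norm_num)).eventually_ge_atTop _
  filter_upwards [hQ, Bk_pow hsc, eventually_ge_atTop n0, eventually_ge_atTop 1] with k hQk hBk hk0 hk1 S hcard hS v hv hv1
  obtain ⟨hc1, hc2⟩ := card_pow hcard
  have hcardk : S.card ≤ k := hc1.trans (Nat.div_le_self k 4)
  have hSsq : ∀ D ∈ S, Squarefree D := fun D hD => (hS D hD).1
  have hS1 : ∀ D ∈ S, 1 ≤ D := fun D hD => Nat.one_le_iff_ne_zero.mpr (hS D hD).1.ne_zero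
  have hk2 : (k:ℝ) ≤ 2 ^ k := by exact_mod_cast (Nat.lt_two_pow_self).le
  have hB1 := Bk_one k
  have hB4 := Bk_ge k
  have hB0 : 0 < Bk k := by linarith
  have hfreq : ∀ n ∈ Nk k, ∑ D ∈ S, √(D:ℝ) + (MM n : ℝ) ≤ Bk k := fun n hn =>
    freq_bd (Nk_mem hn).2 hcardk (fun D hD => (hS D hD).2) hS1
  have hMB : ∀ n ∈ Nk k, (MM n : ℝ) ≤ Bk k := fun n hn => by
    have h1 := hfreq n hn
    have h2 : 0 ≤ ∑ D ∈ S, √(D:ℝ) := Finset.sum_nonneg fun _ _ => Real.sqrt_nonneg _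
    linarith
  have hSM : ∀ n ∈ Nk k, ∀ D ∈ S, D ≤ (MM n) ^ 2 := by
    intro n hn D hD
    have h1 : (D:ℝ) ≤ (((4 ^ k) ^ 2 : ℕ) : ℝ) := by
      push_cast
      calc (D:ℝ) ≤ (k:ℝ) ^ 3 := (hS D hD).2
        _ ≤ ((2:ℝ) ^ k) ^ 3 := pow_le_pow_left₀ (Nat.cast_nonneg _) hk2 3
        _ ≤ ((2:ℝ) ^ k) ^ 4 := pow_le_pow_right₀ (one_le_pow₀ (by norm_num)) (by norm_num)
        _ = ((4:ℝ) ^ k) ^ 2 := by
            rw [← pow_mul, ← pow_mul, show (4:ℝ) = 2 ^ 2 by norm_num, ← pow_mul]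
            congr 1; ring
    have h2 : D ≤ (4 ^ k) ^ 2 := by exact_mod_cast h1
    exact h2.trans (Nat.pow_le_pow_left ((Nk_mem hn).1.trans (self_le_MM n)) 2)
  have hvA : ∀ n ∈ Nk k, v ≤ AA ad (MM n) := by
    intro n hn
    have h1 : ∑ m ∈ S, ad m ≤ AA ad (MM n) := by
      unfold AA
      calc ∑ m ∈ S, ad m ≤ ∑ m ∈ S, |ad m| := Finset.sum_le_sum fun m _ => le_abs_self _
        _ ≤ _ := by
            apply Finset.sum_le_sum_of_subset_of_nonneg
            · intro m hm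
              rw [Finset.mem_Icc]
              exact ⟨hS1 m hm, hSM n hn m hm⟩
            · intro _ _ _
              exact abs_nonneg _
    have h2 : 0 ≤ ∑ m ∈ S, ad m := Finset.sum_nonneg fun m _ => ad_nonneg m
    rw [hv]
    linarith
  set η : ℝ := ((Bk k) ^ (ek k))⁻¹ with hη
  have hη0 : 0 < η := by positivity
  set P : ℝ := pt a b (4 ^ k) c with hP
  have hP0 : 0 < P := pt_pos h _ _
  set Bc : ℝ := 2 ^ k * (2 * Cs * (Bk k) ^ 2) with hBc
  have hBc0 : 0 ≤ Bc := by positivity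
  have hvar := var_gen h hcd (I := fun n => II S (MM n)) (cf := co S ad φ v) (fr := fo S)
    (Ψ := fun n => Psi S ad φ v (MM n)) (μ := v) (η := η) (Λ := Bk k) (B := Bc) (P := P) (S := Nk k) hη0 hP0 hBc0
    (fun n _ R => Psi_exp ad φ v (MM n) R)
    (fun n hn => by
      have h1 := zero_part hSsq (hSM n hn) ad φ v
      have h2 : (1/2) * ∑ D ∈ S, ad D - v = v := by rw [hv]; ring
      rw [h2] at h1
      convert h1)
    (fun n hn i hi hne => by
      have h1 := fo_gap hSsq hB1 (hfreq n hn) hi hne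
      have h2 : (Bk k) ^ (2 ^ (S.card + 1)) ≤ (Bk k) ^ (ek k) := by
        apply pow_le_pow_right₀ hB1
        unfold ek
        exact Nat.pow_le_pow_right (by norm_num) (by omega)
      rw [hη, inv_le_iff_one_le_mul₀ (by positivity)]
      refine h1.trans ?_
      exact mul_le_mul_of_nonneg_left h2 (abs_nonneg _))
    (fun n hn i hi => fo_le (hfreq n hn) hi)
    (fun n hn => by
      rw [co_sum ad φ (by linarith) (MM n)]
      have h1 := hAA (MM n)
      have h2 : Cs * (MM n : ℝ) ^ 2 ≤ Cs * (Bk k) ^ 2 := by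
        apply mul_le_mul_of_nonneg_left _ (by linarith)
        exact pow_le_pow_left₀ (Nat.cast_nonneg _) (hMB n hn) 2
      have h3 := hvA n hn
      rw [hBc]
      apply mul_le_mul (pow_le_pow_right₀ (by norm_num) hcardk) (by linarith)
      · have := AA_nonneg ad (MM n)
        linarith
      · positivity)
    (fun n hn => pt_mono h hc.le (Nk_mem hn).1)
    (fun n hn m hm hnm y hy => by
      have h1 := pt_grow h hc.le (Nk_sep hn hm hnm) hy.1
      have hpn := pt_pos h n y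
      have h2 : 2 * Bk k * (Bk k) ^ (ek k) ≤ Real.exp (δ * ((2 ^ k : ℕ) : ℝ) * c) := by
        push_cast
        calc 2 * Bk k * (Bk k) ^ (ek k) ≤ Bk k * Bk k * (Bk k) ^ (ek k) := by
              have : 2 ≤ Bk k := by
                refine le_trans ?_ hB4
                calc (2:ℝ) ≤ 4 ^ 1 := by norm_num
                  _ ≤ 4 ^ k := pow_le_pow_right₀ (by norm_num) hk1
              gcongr
          _ = (Bk k) ^ (ek k + 2) := by rw [pow_add]; ring
          _ ≤ (Bk k) ^ (ek k + 8) := pow_le_pow_right₀ hB1 (by omega)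
          _ ≤ Real.exp (δ * c * 2 ^ k) := hBk
          _ = _ := by congr 1; ring
      rw [hη, ← div_eq_inv_mul, le_div_iff₀ (by positivity)]
      calc 2 * Bk k * pt a b n y * (Bk k) ^ (ek k) = pt a b n y * (2 * Bk k * (Bk k) ^ (ek k)) := by ring
        _ ≤ pt a b n y * Real.exp (δ * ((2 ^ k : ℕ) : ℝ) * c) := mul_le_mul_of_nonneg_left h2 hpn.le
        _ ≤ pt a b m y := h1)
    (fun n _ => Psi_cont ad φ v (MM n))
  refine hvar.trans ?_
  -- the diagonal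
  have hdiag : ∀ n ∈ Nk k, ∫ y in c..d, (Psi S ad φ v (MM n) (pt a b n y) - v) ^ 2 ≤
      (3/2 : ℝ) ^ k * ((4 * Cm + 6 * (d - c)) * v ^ 2) := by
    intro n hn
    have hc3 := cont_sq φ (MM n) a b n
    have h1 : ∫ y in c..d, (Psi S ad φ v (MM n) (pt a b n y) - v) ^ 2 ≤
        ∫ y in c..d, 4 ^ S.card * (4 * (U ad φ (pt a b n y) (MM n)) ^ 2 + 6 * v ^ 2) := by
      apply intervalIntegral.integral_mono_on hcd
      · exact (cont_Psi S φ v (MM n) a b n).intervalIntegrable _ _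
      · exact (continuous_const.mul ((continuous_const.mul hc3).add continuous_const)).intervalIntegrable _ _
      · intro y _
        exact Psi_sq S φ v (MM n) _
    refine h1.trans ?_
    rw [int_split hc3]
    have hn0 : n0 ≤ n := by
      have := (Nk_mem hn).1
      have h5 : k < 4 ^ k := Nat.lt_pow_self (by norm_num)
      omega
    have h2 := hmom n hn0 (MM n) (MM_def n).le
    have h3 : ∫ y in c..d, (U ad φ (pt a b n y) (MM n)) ^ 2 ≤ Cm := by
      refine le_trans (le_of_eq ?_) h2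
      rw [mul_one]
    have hv2 : 1 ≤ v ^ 2 := one_le_pow₀ hv1
    have h4 : 4 * (∫ y in c..d, (U ad φ (pt a b n y) (MM n)) ^ 2) + (d - c) * (6 * v ^ 2) ≤ (4 * Cm + 6 * (d - c)) * v ^ 2 := by
      nlinarith
    have h5 : 0 ≤ (4 * Cm + 6 * (d - c)) * v ^ 2 := by positivity
    calc 4 ^ S.card * (4 * (∫ y in c..d, (U ad φ (pt a b n y) (MM n)) ^ 2) + (d - c) * (6 * v ^ 2))
        ≤ 4 ^ S.card * ((4 * Cm + 6 * (d - c)) * v ^ 2) := mul_le_mul_of_nonneg_left h4 (by positivity)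
      _ ≤ _ := mul_le_mul_of_nonneg_right hc2 h5
  have hsumd : ∑ n ∈ Nk k, ∫ y in c..d, (Psi S ad φ v (MM n) (pt a b n y) - v) ^ 2 ≤
      2 ^ k * ((3/2 : ℝ) ^ k * ((4 * Cm + 6 * (d - c)) * v ^ 2)) := by
    refine (Finset.sum_le_sum hdiag).trans (le_of_eq ?_)
    rw [Finset.sum_const, Nk_card, nsmul_eq_mul]
    push_cast
    rfl
  -- the off-diagonal terms
  have htiny : (((Nk k).card : ℕ) : ℝ) ^ 2 * (Bc ^ 2 * ((4 + 6 * (d - c)) / (η * P))) ≤ 1 := by
    rw [Nk_card]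
    have hPlow : b 0 * (Bk k) ^ (ek k + 8) ≤ P := by
      refine le_trans ?_ (pt_low h hc.le (4 ^ k))
      apply mul_le_mul_of_nonneg_left _ hb0.le
      refine hBk.trans (Real.exp_le_exp.mpr ?_)
      apply mul_le_mul_of_nonneg_left _ hsc.le
      push_cast
      exact pow_le_pow_left₀ (by norm_num) (by norm_num) k
    have e1 : (((2 ^ k : ℕ) : ℝ)) ^ 2 * (Bc ^ 2 * ((4 + 6 * (d - c)) / (η * P))) =
        ((4:ℝ) ^ k * 4 ^ k * (4 * Cs ^ 2 * (4 + 6 * (d - c))) * (Bk k) ^ 4 * (Bk k) ^ (ek k)) / P := by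
      rw [hBc, hη]
      push_cast
      have e2 : ((2:ℝ) ^ k) ^ 2 = 4 ^ k := (four_sq k).symm
      rw [mul_pow (2 ^ k) _ 2, e2]
      field_simp
      norm_num
    rw [e1, div_le_one hP0]
    refine le_trans ?_ hPlow
    rw [div_le_iff₀ hb0] at hQk
    calc (4:ℝ) ^ k * 4 ^ k * (4 * Cs ^ 2 * (4 + 6 * (d - c))) * (Bk k) ^ 4 * (Bk k) ^ (ek k)
        ≤ Bk k * Bk k * (Bk k * b 0) * (Bk k) ^ 4 * (Bk k) ^ (ek k) := by
          have h9 : 4 * Cs ^ 2 * (4 + 6 * (d - c)) ≤ Bk k * b 0 := by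
            refine hQk.trans ?_
            exact mul_le_mul_of_nonneg_right hB4 hb0.le
          gcongr
      _ = b 0 * (Bk k) ^ (ek k + 7) := by rw [pow_add]; ring
      _ ≤ b 0 * (Bk k) ^ (ek k + 8) := by
          apply mul_le_mul_of_nonneg_left _ hb0.le
          exact pow_le_pow_right₀ hB1 (by omega)
  have e5 : (2:ℝ) ^ k * (3/2 : ℝ) ^ k = 4 ^ k * (3/4 : ℝ) ^ k := by
    rw [← mul_pow, ← mul_pow]; norm_num
  have h10 : (1:ℝ) ≤ 4 ^ k * (3/4 : ℝ) ^ k := by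
    rw [← mul_pow]; exact one_le_pow₀ (by norm_num)
  have hv2 : 1 ≤ v ^ 2 := one_le_pow₀ hv1
  have h11 : (1:ℝ) ≤ v ^ 2 * (4 ^ k * (3/4 : ℝ) ^ k) := by nlinarith
  calc _ ≤ 2 ^ k * ((3/2 : ℝ) ^ k * ((4 * Cm + 6 * (d - c)) * v ^ 2)) + 1 := add_le_add hsumd htiny
    _ = (4 * Cm + 6 * (d - c)) * v ^ 2 * (2 ^ k * (3/2 : ℝ) ^ k) + 1 := by ring
    _ = (4 * Cm + 6 * (d - c)) * v ^ 2 * (4 ^ k * (3/4 : ℝ) ^ k) + 1 := by rw [e5]
    _ ≤ (4 * Cm + 6 * (d - c)) * v ^ 2 * (4 ^ k * (3/4 : ℝ) ^ k) + v ^ 2 * (4 ^ k * (3/4 : ℝ) ^ k) := by linarith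
    _ = _ := by ring

/-- **lower bound for the maxima along almost every progression** -/
theorem low_ae {E : ℝ → ℝ} {φ : ℝ} (hX : Ctx E ad φ) : ∃ C : ℝ, 0 < C ∧ ∀ (a b : ℕ → ℝ) (δ c d : ℝ), Sq a b δ → 0 < c → c ≤ d →
    ∀ᵐ y ∂(volume.restrict (Icc c d)), ∀ᶠ N : ℕ in atTop, ∃ n : ℕ, N ≤ 8 * n ∧ n < N ∧ C * VV N ≤ E (pt a b n y) := by
  classical
  obtain ⟨c0, K0, hc0, hsets⟩ := sqf_sets
  refine ⟨c0 / 64, by positivity, ?_⟩
  intro a b δ c d h hc hcd
  have hex : ∀ k : ℕ, ∃ S : Finset ℕ, (S.card : ℝ) ≤ (k:ℝ) / 4 ∧ (∀ m ∈ S, Squarefree m ∧ (m:ℝ) ≤ (k:ℝ) ^ 3) ∧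
      (K0 ≤ (k:ℝ) / 4 → c0 * WW ((k:ℝ) / 4) ≤ ∑ m ∈ S, ad m) := by
    intro k
    by_cases hk : K0 ≤ (k:ℝ) / 4
    · obtain ⟨S, h1, h2, h3⟩ := hsets _ hk
      refine ⟨S, h1, fun m hm => ⟨(h2 m hm).1, ?_⟩, fun _ => h3⟩
      refine (h2 m hm).2.trans ?_
      have : (0:ℝ) ≤ k := Nat.cast_nonneg k
      exact pow_le_pow_left₀ (by positivity) (by linarith) 3
    · refine ⟨∅, ?_, ?_, fun h => absurd h hk⟩
      · simp only [Finset.card_empty, Nat.cast_zero]
        positivity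
      · intro m hm
        simp at hm
  choose S hS1 hS2 hS3 using hex
  set v : ℕ → ℝ := fun k => (1/4) * ∑ m ∈ S k, ad m with hv
  have hkq : Tendsto (fun k : ℕ => (k:ℝ) / 4) atTop atTop :=
    tendsto_natCast_atTop_atTop.atTop_div_const (by norm_num)
  have hvlow : ∀ᶠ k : ℕ in atTop, (c0 / 4) * WW ((k:ℝ) / 4) ≤ v k := by
    filter_upwards [hkq.eventually_ge_atTop K0] with k hk
    have := hS3 k hk
    simp only [hv]
    linarith
  have hv2 : ∀ᶠ k : ℕ in atTop, 2 ≤ v k := by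
    have h1 : Tendsto (fun k : ℕ => (c0 / 4) * WW ((k:ℝ) / 4)) atTop atTop :=
      (WW_tendsto.comp hkq).const_mul_atTop (by positivity)
    filter_upwards [hvlow, h1.eventually_ge_atTop 2] with k h2 h3
    linarith
  obtain ⟨Cv, hCv, hvar⟩ := blk_var h hc hcd φ
  set g : ℕ → ℝ → ℝ := fun k y =>
    (∑ n ∈ Nk k, (Psi (S k) ad φ (v k) (MM n) (pt a b n y) - v k)) ^ 2 / (4 ^ k * (v k) ^ 2) with hg
  have hgc : ∀ k, Continuous (g k) := by
    intro k
    simp only [hg]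
    exact ((continuous_finsetSum _ fun n _ => ((Psi_cont ad φ (v k) (MM n)).comp (pt_cont a b n)).sub
      continuous_const).pow 2).div_const _
  obtain ⟨k1, hk1⟩ := eventually_atTop.mp (hvar.and hv2)
  have hsum : Summable fun k : ℕ => Cv * (3/4 : ℝ) ^ k :=
    (summable_geometric_of_lt_one (by norm_num) (by norm_num)).mul_left Cv
  have hae := ae_zero' hcd hgc hsum (j0 := k1) (fun k hk => by
    obtain ⟨q1, q2⟩ := hk1 k hk
    have h2 := q1 (S k) (hS1 k) (hS2 k) (v k) rfl (by linarith)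
    have h3 : ∫ y in c..d, g k y = (∫ y in c..d, (∑ n ∈ Nk k, (Psi (S k) ad φ (v k) (MM n) (pt a b n y) - v k)) ^ 2) /
        (4 ^ k * (v k) ^ 2) := by
      rw [← intervalIntegral.integral_div]
    have hv0 : 0 < (v k) ^ 2 := by positivity
    rw [h3, div_le_iff₀ (by positivity)]
    refine h2.trans (le_of_eq ?_)
    ring) (fun k y => by
    simp only [hg]
    positivity)
  filter_upwards [hae, ae_err hX h hc hcd (p := dg) (by unfold dg; norm_num)] with y hy1 hy2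
  -- one block
  have hblk : ∀ᶠ k : ℕ in atTop, ∃ n ∈ Nk k, v k / 2 ≤ E (pt a b n y) := by
    obtain ⟨n1, hn1⟩ := eventually_atTop.mp (hy2.eventually (Metric.ball_mem_nhds 0 one_pos))
    filter_upwards [hy1.eventually (gt_mem_nhds (zero_lt_one)), hv2, eventually_ge_atTop n1] with k h1 h2 h3
    by_contra hne
    push Not at hne
    have h4 : ∀ n ∈ Nk k, Psi (S k) ad φ (v k) (MM n) (pt a b n y) - v k ≤ -(v k) := by
      intro n hn
      have h5 := hne n hn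
      have h6 : n1 ≤ n := by
        have := (Nk_mem hn).1
        have h7 : k < 4 ^ k := Nat.lt_pow_self (by norm_num)
        omega
      have h7 := hn1 n h6
      rw [Real.dist_eq, sub_zero, abs_lt] at h7
      have h8 : U ad φ (pt a b n y) (MM n) - v k ≤ 0 := by
        have h9 : E (pt a b n y) - U ad φ (pt a b n y) (MM n) > -1 := h7.1
        linarith
      have h9 : Psi (S k) ad φ (v k) (MM n) (pt a b n y) ≤ 0 := by
        unfold Psi
        exact mul_nonpos_of_nonneg_of_nonpos (Kz_nonneg φ _) h8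
      linarith
    have h5 : ∑ n ∈ Nk k, (Psi (S k) ad φ (v k) (MM n) (pt a b n y) - v k) ≤ -(2 ^ k * v k) := by
      refine (Finset.sum_le_sum h4).trans (le_of_eq ?_)
      rw [Finset.sum_const, Nk_card, nsmul_eq_mul]
      push_cast
      ring
    have h6 : 1 ≤ g k y := by
      simp only [hg]
      rw [le_div_iff₀ (by positivity), one_mul]
      have e1 : (4:ℝ) ^ k * (v k) ^ 2 = (2 ^ k * v k) ^ 2 := by
        rw [four_sq]; ring
      rw [e1]
      have h0 : 0 ≤ 2 ^ k * v k := by positivity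
      nlinarith
    linarith
  obtain ⟨k2, hk2⟩ := eventually_atTop.mp (hblk.and hvlow)
  filter_upwards [eventually_ge_atTop (2 * 4 ^ (k2 + 40)), log_nat_tendsto.eventually_ge_atTop 1] with N hN hlN
  set k := Nat.log 4 (N / 2) with hk
  have hN2 : N / 2 ≠ 0 := by
    have : 0 < 4 ^ (k2 + 40) := by positivity
    omega
  have g1 : 4 ^ k ≤ N / 2 := Nat.pow_log_le_self 4 hN2
  have g2 : N / 2 < 4 ^ (k + 1) := Nat.lt_pow_succ_log_self (by norm_num) _
  have g3 : k2 + 40 ≤ k := by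
    rw [hk]
    apply Nat.le_log_of_pow_le (by norm_num)
    omega
  obtain ⟨⟨n, hn, hE⟩, hvl⟩ := hk2 k (by omega)
  obtain ⟨g4, g5⟩ := Nk_mem hn
  have hpow : 4 ^ (k + 1) = 4 * 4 ^ k := by rw [pow_succ]; ring
  refine ⟨n, by omega, by omega, ?_⟩
  have hkr : (40:ℝ) ≤ k := by
    have : 40 ≤ k := by omega
    exact_mod_cast this
  have hlogN : Real.log N ≤ 8 * ((k:ℝ) / 4) := by
    have h1 : (N:ℝ) ≤ 8 * 4 ^ k := by
      have : N ≤ 8 * 4 ^ k := by omega
      exact_mod_cast this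
    have hN0 : (0:ℝ) < N := by
      have : 0 < N := by omega
      exact_mod_cast this
    have h2 : Real.log N ≤ Real.log (8 * 4 ^ k) := Real.log_le_log hN0 h1
    rw [Real.log_mul (by norm_num) (by positivity), Real.log_pow, show (8:ℝ) = 2 ^ 3 by norm_num,
      show (4:ℝ) = 2 ^ 2 by norm_num, Real.log_pow, Real.log_pow] at h2
    have := Real.log_two_lt_d9
    push_cast at h2
    nlinarith
  have hVV : VV N ≤ 8 * WW ((k:ℝ) / 4) := by
    rw [VV_eq]
    refine (WW_mono hlN hlogN).trans (WW_scale (by linarith))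
  calc c0 / 64 * VV N ≤ c0 / 64 * (8 * WW ((k:ℝ) / 4)) := mul_le_mul_of_nonneg_left hVV (by positivity)
    _ = (c0 / 4 * WW ((k:ℝ) / 4)) / 2 := by ring
    _ ≤ v k / 2 := by linarith
    _ ≤ _ := hE

end Run7.h113.DM
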