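import Mathlib
import Pool.Agent.Run7.h113.DM.Low
import Pool.Agent.Run7.h113.GX.Dv

/-!
The maximal order of the error term of the divisor problem along almost every geometric progression.
-/

set_option autoImplicit false

open MeasureTheory Filter Topology Set Real
open Pool.Agent.H383.Gen (U Bd)
open Pool.Agent.H383.Div (E2 ad ad_nonneg ad_Bd ad_zero)
open Pool.Agent.H387R2.Vor (Ed Del Dsum dv)
open Pool.Agent.R306.GP (Ctx Sq pt pt_pos ae_pos ae_exp)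
open Run7.h113 (pp pp_le lt_pp log_nat_nonneg log_nat_tendsto pp_tendsto MM)

namespace Run7.h113.DM

lemma U_flip (φ R : ℝ) (M : ℕ) : U ad (φ + Real.pi) R M = - U ad φ R M := by
  unfold U
  rw [← Finset.sum_neg_distrib]
  apply Finset.sum_congr rfl
  intro m _
  rw [show 2 * Real.pi * (R * √(m:ℝ)) - (φ + Real.pi) = 2 * Real.pi * (R * √(m:ℝ)) - φ - Real.pi by ring,
    Real.cos_sub_pi]
  ring

lemma Ctx_neg {E : ℝ → ℝ} {φ : ℝ} (hX : Ctx E ad φ) : Ctx (fun x => -E x) ad (φ + Real.pi) := by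
  refine ⟨hX.bd, hX.meas.neg, fun c d hcd => ?_⟩
  obtain ⟨C, hC, ρ, hρ, h⟩ := hX.l2 c d hcd
  refine ⟨C, hC, ρ, hρ, fun A b hA hb hρb M hM hMb => ?_⟩
  have h1 := h A b hA hb hρb M hM hMb
  have e : ∀ y : ℝ, (-E (b * Real.exp (A * y)) - U ad (φ + Real.pi) (b * Real.exp (A * y)) M) ^ 2 =
      (E (b * Real.exp (A * y)) - U ad φ (b * Real.exp (A * y)) M) ^ 2 := by
    intro y
    rw [U_flip]
    ring
  simp only [e]
  exact h1

lemma VV_shift (n0 : ℕ) : ∀ᶠ N : ℕ in atTop, VV ((N + n0 : ℕ) : ℝ) ≤ 8 * VV N := by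
  filter_upwards [eventually_ge_atTop (n0 + 2), log_nat_tendsto.eventually_ge_atTop 8] with N hN hl
  rw [VV_eq, VV_eq]
  refine (WW_mono ?_ ?_).trans (WW_scale hl)
  · have h1 : Real.log (N:ℝ) ≤ Real.log ((N + n0 : ℕ) : ℝ) := by
      apply Real.log_le_log
      · have : 0 < N := by omega
        exact_mod_cast this
      · push_cast
        have : (0:ℝ) ≤ n0 := Nat.cast_nonneg _
        linarith
    linarith
  · have h1 : ((N + n0 : ℕ) : ℝ) ≤ (N:ℝ) ^ 2 := by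
      have : N + n0 ≤ N ^ 2 := by nlinarith
      exact_mod_cast this
    have h2 : Real.log ((N + n0 : ℕ) : ℝ) ≤ Real.log ((N:ℝ) ^ 2) := by
      apply Real.log_le_log _ h1
      have : 0 < N + n0 := by omega
      exact_mod_cast this
    rw [Real.log_pow, Nat.cast_ofNat] at h2
    linarith

lemma VV_tendsto : Tendsto (fun N : ℕ => VV (N:ℝ)) atTop atTop :=
  WW_tendsto.comp log_nat_tendsto

lemma VV_mono_ev : ∀ᶠ n : ℕ in atTop, ∀ N : ℕ, n ≤ N → VV (n:ℝ) ≤ VV (N:ℝ) := by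
  filter_upwards [log_nat_tendsto.eventually_ge_atTop 1, eventually_ge_atTop 1] with n hn hn1 N hnN
  rw [VV_eq, VV_eq]
  apply WW_mono hn
  apply Real.log_le_log
  · exact_mod_cast hn1
  · exact_mod_cast hnN

/-- **the maximal order along almost every geometric progression** -/
theorem max_E2 : ∃ c C : ℝ, 0 < c ∧ 0 < C ∧ ∀ (a b : ℕ → ℝ) (δ : ℝ), 0 < δ → (∀ n, a n + δ ≤ a (n + 1)) →
    (∀ n, 0 < b n) → Monotone b → ∀ᵐ α : ℝ, 1 < α → ∀ᶠ N : ℕ in atTop,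
      (∀ n ≤ N, |E2 (b n * α ^ (a n))| ≤ C * VV N) ∧
      (∃ n : ℕ, N ≤ 8 * n ∧ n < N ∧ c * VV N ≤ E2 (b n * α ^ (a n))) ∧
      (∃ n : ℕ, N ≤ 8 * n ∧ n < N ∧ E2 (b n * α ^ (a n)) ≤ -(c * VV N)) := by
  obtain ⟨-, -, -, -, -, -, -, -, -, -, hX, -⟩ := Run7.h113.GX.dv_gen
  obtain ⟨C, hC, hup⟩ := up_ae hX
  obtain ⟨c1, hc1, hlow1⟩ := low_ae hX
  obtain ⟨c2, hc2, hlow2⟩ := low_ae (Ctx_neg hX)
  refine ⟨min c1 c2 / 8, C, by positivity, hC, ?_⟩
  intro a b δ hδ hgap hb hmono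
  have hlow : ∀ n : ℕ, a 0 + δ * n ≤ a n := by
    intro n
    induction n with
    | zero => simp
    | succ n ih =>
      have := hgap n
      push_cast
      linarith
  obtain ⟨n0, hn0⟩ := exists_nat_ge ((1 - a 0) / δ)
  have hone : ∀ n : ℕ, 1 ≤ a (n + n0) := by
    intro n
    have h1 := hlow (n + n0)
    rw [div_le_iff₀ hδ] at hn0
    push_cast at h1
    have h2 : (0:ℝ) ≤ n := Nat.cast_nonneg n
    nlinarith
  have hSq : Sq (fun n => a (n + n0)) (fun n => b (n + n0)) (min δ 1) :=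
    ⟨lt_min hδ one_pos, min_le_right _ _, hone, fun n => by
      have h1 := hgap (n + n0)
      have h2 := min_le_left δ 1
      show a (n + n0) + min δ 1 ≤ a (n + 1 + n0)
      have h3 : n + 1 + n0 = n + n0 + 1 := by ring
      rw [h3]
      linarith, fun n => hb _, fun n m hnm => hmono (by omega)⟩
  apply ae_exp
  have hall : ∀ᵐ y : ℝ, 0 < y →
      (∀ᶠ n : ℕ in atTop, |E2 (pt (fun n => a (n + n0)) (fun n => b (n + n0)) n y)| ≤ C * VV n) ∧
      (∀ᶠ N : ℕ in atTop, ∃ n : ℕ, N ≤ 8 * n ∧ n < N ∧ c1 * VV N ≤ E2 (pt (fun n => a (n + n0)) (fun n => b (n + n0)) n y)) ∧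
      (∀ᶠ N : ℕ in atTop, ∃ n : ℕ, N ≤ 8 * n ∧ n < N ∧
        c2 * VV N ≤ -E2 (pt (fun n => a (n + n0)) (fun n => b (n + n0)) n y)) := by
    apply ae_pos
    intro c d hc hcd
    filter_upwards [hup _ _ _ c d hSq hc hcd.le, hlow1 _ _ _ c d hSq hc hcd.le, hlow2 _ _ _ c d hSq hc hcd.le]
      with y h1 h2 h3
    exact ⟨h1, h2, h3⟩
  filter_upwards [hall] with y hy hy0
  obtain ⟨h1, h2, h3⟩ := hy hy0
  have hpt : ∀ n : ℕ, pt (fun n => a (n + n0)) (fun n => b (n + n0)) n y = b (n + n0) * Real.exp y ^ a (n + n0) := by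
    intro n
    unfold pt
    rw [← Real.exp_mul, mul_comm y]
  simp only [hpt] at h1 h2 h3
  -- transfer
  have hVp : ∀ᶠ N : ℕ in atTop, (0:ℝ) ≤ VV N := VV_tendsto.eventually_ge_atTop 0
  have t1 : ∀ᶠ n : ℕ in atTop, |E2 (b n * Real.exp y ^ a n)| ≤ C * VV n := by
    obtain ⟨n1, hn1⟩ := eventually_atTop.mp (h1.and VV_mono_ev)
    filter_upwards [eventually_ge_atTop (n1 + n0)] with n hn
    obtain ⟨g1, g2⟩ := hn1 (n - n0) (by omega)
    have e1 : n - n0 + n0 = n := by omega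
    rw [e1] at g1
    exact g1.trans (mul_le_mul_of_nonneg_left (g2 n (by omega)) hC.le)
  have key : ∀ (F : ℕ → ℝ) (c' : ℝ), 0 < c' → min c1 c2 ≤ c' →
      (∀ᶠ N : ℕ in atTop, ∃ n : ℕ, N ≤ 8 * n ∧ n < N ∧ c' * VV N ≤ F (n + n0)) →
      ∀ᶠ N : ℕ in atTop, ∃ n : ℕ, N ≤ 8 * n ∧ n < N ∧ min c1 c2 / 8 * VV N ≤ F n := by
    intro F c' hc' hmin hF
    obtain ⟨N1, hN1⟩ := eventually_atTop.mp (hF.and ((VV_shift n0).and hVp))
    filter_upwards [eventually_ge_atTop (N1 + n0)] with N hN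
    obtain ⟨⟨n, g1, g2, g3⟩, g4, g5⟩ := hN1 (N - n0) (by omega)
    refine ⟨n + n0, by omega, by omega, ?_⟩
    have e1 : N - n0 + n0 = N := by omega
    rw [e1] at g4
    have hm : 0 < min c1 c2 := lt_min hc1 hc2
    calc min c1 c2 / 8 * VV N ≤ min c1 c2 / 8 * (8 * VV ((N - n0 : ℕ) : ℝ)) :=
          mul_le_mul_of_nonneg_left g4 (by positivity)
      _ = min c1 c2 * VV ((N - n0 : ℕ) : ℝ) := by ring
      _ ≤ c' * VV ((N - n0 : ℕ) : ℝ) := mul_le_mul_of_nonneg_right hmin g5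
      _ ≤ _ := g3
  have t2 := key (fun n => E2 (b n * Real.exp y ^ a n)) c1 hc1 (min_le_left _ _) h2
  have t3 := key (fun n => -E2 (b n * Real.exp y ^ a n)) c2 hc2 (min_le_right _ _) h3
  obtain ⟨n1, hn1⟩ := eventually_atTop.mp (t1.and VV_mono_ev)
  -- the finitely many initial terms
  have hfin : ∀ᶠ N : ℕ in atTop, ∀ n ∈ Finset.range n1, |E2 (b n * Real.exp y ^ a n)| ≤ C * VV N := by
    have hCV : Tendsto (fun N : ℕ => C * VV (N:ℝ)) atTop atTop := VV_tendsto.const_mul_atTop hC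
    have := hCV.eventually_ge_atTop (∑ n ∈ Finset.range n1, |E2 (b n * Real.exp y ^ a n)|)
    filter_upwards [this] with N hN n hn
    exact (Finset.single_le_sum (f := fun n => |E2 (b n * Real.exp y ^ a n)|) (fun _ _ => abs_nonneg _) hn).trans hN
  filter_upwards [t2, t3, hfin] with N g2 g3 g4
  refine ⟨fun n hn => ?_, g2, ?_⟩
  · rcases lt_or_ge n n1 with h | h
    · exact g4 n (Finset.mem_range.mpr h)
    · obtain ⟨q1, q2⟩ := hn1 n h
      exact q1.trans (mul_le_mul_of_nonneg_left (q2 N hn) hC.le)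
  · obtain ⟨n, q1, q2, q3⟩ := g3
    exact ⟨n, q1, q2, by linarith⟩


/-- **the maximal order of `Δ` along almost every geometric progression** -/
theorem max_div : ∃ c C : ℝ, 0 < c ∧ 0 < C ∧ ∀ (a b : ℕ → ℝ) (δ : ℝ), 0 < δ → (∀ n, a n + δ ≤ a (n + 1)) →
    (∀ n, 0 < b n) → Monotone b → ∀ᵐ α : ℝ, 1 < α → ∀ᶠ N : ℕ in atTop,
      (∀ n ≤ N, |Del (b n * α ^ (a n))| ≤ C * VV N * (b n * α ^ (a n)) ^ (1 / 4 : ℝ)) ∧
      (∃ n : ℕ, N ≤ 8 * n ∧ n < N ∧ c * VV N * (b n * α ^ (a n)) ^ (1 / 4 : ℝ) ≤ Del (b n * α ^ (a n))) ∧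
      (∃ n : ℕ, N ≤ 8 * n ∧ n < N ∧ Del (b n * α ^ (a n)) ≤ -(c * VV N * (b n * α ^ (a n)) ^ (1 / 4 : ℝ))) := by
  obtain ⟨c, C, hc, hC, h⟩ := max_E2
  refine ⟨c, C, hc, hC, fun a b δ hδ hgap hb hmono => ?_⟩
  have h1 := h (fun n => a n / 2) (fun n => 2 * √(b n)) (δ / 2) (by positivity)
    (fun n => by
      have := hgap n
      show a n / 2 + δ / 2 ≤ a (n + 1) / 2
      linarith)
    (fun n => by
      have := Real.sqrt_pos.mpr (hb n)
      show 0 < 2 * √(b n)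
      positivity)
    (fun n m hnm => by
      show 2 * √(b n) ≤ 2 * √(b m)
      have := Real.sqrt_le_sqrt (hmono hnm)
      linarith)
  filter_upwards [h1] with α hα hα1
  have hx : ∀ n, 0 < b n * α ^ a n := fun n => mul_pos (hb n) (Real.rpow_pos_of_pos (by linarith) _)
  have e1 : ∀ n : ℕ, E2 (2 * √(b n) * α ^ (a n / 2)) = Del (b n * α ^ a n) / (b n * α ^ a n) ^ (1 / 4 : ℝ) := by
    intro n
    have hα0 : 0 < α := by linarith
    have e2 : 2 * √(b n) * α ^ (a n / 2) = 2 * √(b n * α ^ a n) := by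
      rw [Real.sqrt_mul (hb n).le, Real.sqrt_eq_rpow (α ^ a n), ← Real.rpow_mul hα0.le]
      ring_nf
    rw [e2]
    set y := b n * α ^ a n with hy
    have hy0 : 0 < y := hx n
    unfold E2 Ed
    rw [show 2 * √y / 2 = √y by ring, Real.sq_sqrt hy0.le]
    congr 1
    rw [Real.sqrt_eq_rpow, Real.sqrt_eq_rpow, ← Real.rpow_mul hy0.le]
    norm_num
  filter_upwards [hα hα1] with N hN
  simp only [e1] at hN
  obtain ⟨g1, ⟨n, g2, g3, g4⟩, ⟨m, g5, g6, g7⟩⟩ := hN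
  have hp : ∀ n, 0 < (b n * α ^ a n) ^ (1 / 4 : ℝ) := fun n => Real.rpow_pos_of_pos (hx n) _
  refine ⟨fun n hn => ?_, ⟨n, g2, g3, ?_⟩, ⟨m, g5, g6, ?_⟩⟩
  · have := g1 n hn
    rwa [abs_div, abs_of_pos (hp n), div_le_iff₀ (hp n)] at this
  · rwa [le_div_iff₀ (hp n)] at g4
  · rw [div_le_iff₀ (hp m)] at g7
    linarith

end Run7.h113.DM
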